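import Pool.Agent.Work.MP_a2bf38_gt.L.Asub
import Pool.Agent.Work.MP_a2bf38_gt.K.PshCOf
import Mathlib.Analysis.Analytic.IsolatedZeros
import Mathlib.Analysis.Complex.CauchyIntegral

/-!
# Continuous plurisubharmonic functions from the asymptotic sub-mean value property

The asymptotic sub-mean value property is needed only off the zero set of a holomorphic function.
-/

open scoped ContDiff ENNReal ComplexOrder Topology
open Set MeasureTheory Filter Pool.Agent.ToricKRF Pool.Agent.ToricKRF.G Pool.Agent.KRFS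
  Pool.Agent.KRFF Pool.Agent.KRFG

namespace Pool.Agent.KRFH

namespace AsubN

variable {m : ℕ}

/-- a holomorphic function on a complex line -/
theorem diff_line {s : Cn m → ℂ} {U : Set (Cn m)} (hU : IsOpen U) (hs : NF.HolC s U)
    (z v : Cn m) : DifferentiableOn ℂ (fun ζ => s (line z v ζ)) (line z v ⁻¹' U) := by
  intro ζ hζ
  have h1 : HasFDerivAt s (fderiv ℝ s (line z v ζ)) (line z v ζ) :=
    (NF.diffAt hU hs.1 hζ).hasFDerivAt
  have h2 := h1.comp ζ (hasFDerivAt_line z v ζ)
  have h3 : HasFDerivAt (𝕜 := ℂ) (fun ζ => s (line z v ζ))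
      ((1 : ℂ →L[ℂ] ℂ).smulRight (fderiv ℝ s (line z v ζ) v)) ζ := by
    refine hasFDerivAt_of_restrictScalars ℝ h2 ?_
    ext w
    have h4 : w = (w.re : ℂ) + (w.im : ℂ) * Complex.I := (Complex.re_add_im w).symm
    have h5 := hs.2 _ hζ v
    simp only [ContinuousLinearMap.coe_restrictScalars', ContinuousLinearMap.smulRight_apply,
      one_apply_eq_self, ContinuousLinearMap.comp_apply, lineL_apply, map_add, map_smul,
      Complex.real_smul, smul_eq_mul, h5]
    nth_rewrite 1 [h4]
    ring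
  exact h3.differentiableAt.differentiableWithinAt

/-- the zeros in the closed disc of a holomorphic function are finite -/
theorem finite_zeros {g : ℂ → ℂ} {U : Set ℂ} (hU : IsOpen U) (hg : DifferentiableOn ℂ g U)
    (hB : Metric.closedBall 0 1 ⊆ U) (h0 : g 0 ≠ 0) :
    {ζ | ζ ∈ Metric.closedBall (0 : ℂ) 1 ∧ g ζ = 0}.Finite := by
  by_contra hinf
  obtain ⟨x, hx, hacc⟩ := Set.Infinite.exists_accPt_of_subset_isCompact hinf
    (isCompact_closedBall (0 : ℂ) 1) fun ζ hζ => hζ.1
  have han : AnalyticOnNhd ℂ g (Metric.closedBall 0 1) := fun ζ hζ =>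
    hg.analyticAt (hU.mem_nhds (hB hζ))
  have hfr : ∃ᶠ ζ in 𝓝[≠] x, g ζ = 0 := by
    have h1 := accPt_iff_frequently_nhdsNE.1 hacc
    exact h1.mono fun ζ hζ => hζ.2
  have h2 := han.eqOn_zero_of_preconnected_of_frequently_eq_zero
    (convex_closedBall (0 : ℂ) 1).isPreconnected hx hfr
  exact h0 (h2 (by simp))

theorem visc_line {u : Cn m → ℝ} {V : Set (Cn m)} (hu : ContinuousOn u V) {z v : Cn m}
    (hz : ∀ ζ : ℂ, ‖ζ‖ ≤ 1 → line z v ζ ∈ V) {S : Set ℂ} (hS : S.Finite)
    (h : ∀ a ∈ Metric.ball (0 : ℂ) 1, a ∉ S → Asub u (line z v a) v) :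
    u z ≤ cavg (fun ζ => u (line z v ζ)) 1 := by
  have h1 : u z = (fun ζ => u (line z v ζ)) 0 := by simp only [line_zero]
  rw [h1]
  refine visc_asub (u := fun ζ => u (line z v ζ)) ?_ hS fun a ha haS ε hε => ?_
  · refine hu.comp (contDiff_line z v).continuous.continuousOn fun ζ hζ => hz ζ ?_
    simpa using hζ
  · have h2 := h a ha haS ε hε
    have h3 : (fun ζ => u (line (line z v a) v ζ)) = fun ξ => u (line z v (a + ξ)) := by
      funext ξ
      rw [line_add, line_eq (line z v a) v ξ]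
    rw [h3] at h2
    exact h2

/-- the sub-mean value property passes to the limit of the centers -/
theorem limit {u : Cn m → ℝ} {V : Set (Cn m)} (hV : IsOpen V)
    (hu : ContinuousOn u V) {z v : Cn m} (hz : ∀ ζ : ℂ, ‖ζ‖ ≤ 1 → line z v ζ ∈ V)
    {A : Set (Cn m)} (hA : z ∈ closure A) (h : ∀ w ∈ A, (∀ ζ : ℂ, ‖ζ‖ ≤ 1 → line w v ζ ∈ V) →
      u w ≤ cavg (fun ζ => u (line w v ζ)) 1) :
    u z ≤ cavg (fun ζ => u (line z v ζ)) 1 := by
  have : (𝓝[A] z).NeBot := mem_closure_iff_nhdsWithin_neBot.1 hA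
  -- a compact neighbourhood of the closed disc
  have hcl : Continuous (line z v) := (contDiff_line z v).continuous
  have hK : IsCompact (line z v '' Metric.closedBall 0 1) :=
    (isCompact_closedBall (0 : ℂ) 1).image hcl
  have hKV : line z v '' Metric.closedBall 0 1 ⊆ V := by
    rintro _ ⟨ζ, hζ, rfl⟩
    exact hz ζ (by simpa using hζ)
  obtain ⟨ρ, hρ, hρV⟩ := hK.exists_cthickening_subset_open hV hKV
  have hK' : IsCompact (Metric.cthickening ρ (line z v '' Metric.closedBall 0 1)) :=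
    hK.cthickening
  obtain ⟨C, hC⟩ := hK'.exists_bound_of_continuousOn (hu.mono hρV)
  have hmem : ∀ w : Cn m, w ∈ Metric.closedBall z ρ → ∀ ζ : ℂ, ‖ζ‖ ≤ 1 → line w v ζ ∈
      Metric.cthickening ρ (line z v '' Metric.closedBall 0 1) := by
    intro w hw ζ hζ
    refine Metric.mem_cthickening_of_dist_le _ (line z v ζ) ρ _
      (mem_image_of_mem _ (by simpa using hζ)) ?_
    rw [line_eq, line_eq, dist_add_right]
    exact hw
  have hsmall : ∀ᶠ w in 𝓝[A] z, w ∈ Metric.closedBall z ρ :=
    mem_nhdsWithin_of_mem_nhds (Metric.closedBall_mem_nhds z hρ)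
  have hle : ∀ᶠ w in 𝓝[A] z, u w ≤ cavg (fun ζ => u (line w v ζ)) 1 := by
    filter_upwards [hsmall, self_mem_nhdsWithin] with w h1 h2
    exact h w h2 fun ζ hζ => hρV (hmem w h1 ζ hζ)
  -- limits
  have hlim1 : Tendsto u (𝓝[A] z) (𝓝 (u z)) := by
    have h0 : z ∈ V := by simpa [line_zero] using hz 0 (by simp)
    exact (hu.continuousAt (hV.mem_nhds h0)).tendsto.mono_left nhdsWithin_le_nhds
  have hlim2 : Tendsto (fun w => cavg (fun ζ => u (line w v ζ)) 1)
      (𝓝[A] z) (𝓝 (cavg (fun ζ => u (line z v ζ)) 1)) := by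
    simp only [cavg]
    refine Tendsto.const_mul _ ?_
    have hn : ∀ θ : ℝ, ‖((1 : ℝ) : ℂ) * Complex.exp (θ * Complex.I)‖ ≤ 1 := by
      intro θ; simp [Complex.norm_exp_ofReal_mul_I]
    refine intervalIntegral.tendsto_integral_filter_of_dominated_convergence (fun _ => C) ?_ ?_
      intervalIntegrable_const ?_
    · filter_upwards [hsmall] with w hw
      have h3 : ContinuousOn (fun θ : ℝ => u (line w v
          (((1 : ℝ) : ℂ) * Complex.exp (θ * Complex.I)))) univ := by
        refine hu.comp (f := fun θ : ℝ => line w v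
          (((1 : ℝ) : ℂ) * Complex.exp (θ * Complex.I))) ?_ fun θ _ => hρV (hmem w hw _ (hn θ))
        refine Continuous.continuousOn ((contDiff_line _ v).continuous.comp ?_)
        fun_prop
      exact (continuousOn_univ.1 h3).aestronglyMeasurable
    · filter_upwards [hsmall] with w hw
      refine Eventually.of_forall fun θ _ => hC _ (hmem w hw _ (hn θ))
    · refine Eventually.of_forall fun θ _ => ?_
      have h0 := hz _ (hn θ)
      have h1 : Continuous fun w : Cn m => line w v
          (((1 : ℝ) : ℂ) * Complex.exp (θ * Complex.I)) := by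
        simp only [line_eq]
        fun_prop
      exact ((hu.continuousAt (hV.mem_nhds h0)).tendsto.comp (h1.tendsto z)).mono_left
        nhdsWithin_le_nhds
  exact le_of_tendsto_of_tendsto hlim1 hlim2 hle

end AsubN

open AsubN in
/-- **continuous psh functions from the asymptotic sub-mean value property off the zero sets of
holomorphic functions** -/
theorem pshC_of_asub {m : ℕ} {u : Cn m → ℝ} {V : Set (Cn m)} (hV : IsOpen V)
    (hu : ContinuousOn u V)
    (h : ∀ z₀ ∈ V, ∃ (U : Set (Cn m)) (s : Cn m → ℂ), IsOpen U ∧ z₀ ∈ U ∧ NF.HolC s U ∧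
      U ⊆ closure {w | w ∈ U ∧ s w ≠ 0} ∧
      ∀ z ∈ U, z ∈ V → s z ≠ 0 → ∀ v, Asub u z v) : PshC u V := by
  have hall : ∀ z ∈ V, ∀ v, Asub u z v := by
    intro z₀ hz₀ v₀
    obtain ⟨U, s, hU, hzU, hs, hcl, hA⟩ := h z₀ hz₀
    refine asub_of_pshC (hU.inter hV) ⟨hu.mono inter_subset_right, fun z v hz => ?_⟩
      ⟨hzU, hz₀⟩ v₀
    have hzU' : z ∈ U := by simpa [line_zero] using (hz 0 (by simp)).1
    refine limit (hU.inter hV) (hu.mono inter_subset_right) hz (hcl hzU') fun w hw hw' => ?_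
    have hfin := finite_zeros (hU.preimage (contDiff_line w v).continuous) (diff_line hU hs w v)
      (fun ζ hζ => (hw' ζ (by simpa using hζ)).1) (by rw [line_zero]; exact hw.2)
    refine visc_line (hu.mono inter_subset_right) hw' hfin fun a ha haS => ?_
    have ha1 : ‖a‖ ≤ 1 := by
      have : ‖a‖ < 1 := by simpa using ha
      exact this.le
    refine hA _ (hw' a ha1).1 (hw' a ha1).2 (fun h0 => haS ⟨?_, h0⟩) v
    simpa using ha1
  refine ⟨hu, fun z v hz => ?_⟩
  refine visc_line hu hz Set.finite_empty fun a ha _ => hall _ (hz a ?_) v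
  have : ‖a‖ < 1 := by simpa using ha
  exact this.le

end Pool.Agent.KRFH
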