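import Pool.Agent.Work.MP_a2bf38_gt.K.Mollify
import Pool.Agent.Work.MP_a2bf38_gt.I.ModulusCore
import Mathlib.Analysis.Complex.Harmonic.MeanValue
import Mathlib.Analysis.InnerProductSpace.Harmonic.Constructions

/-!
# The three circles theorem for continuous plurisubharmonic functions
-/

open scoped ContDiff ENNReal ComplexOrder Topology
open Set MeasureTheory Filter Pool.Agent.ToricKRF Pool.Agent.ToricKRF.G Pool.Agent.KRFS
  Pool.Agent.KRFF Pool.Agent.KRFG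

namespace Pool.Agent.KRFH

namespace Three

theorem nsq_lineL {m : ℕ} (e : Cn m) (ζ : ℂ) : nsq (lineL e ζ) = ‖ζ‖ ^ 2 * nsq e := by
  have h1 : ‖ζ‖ ^ 2 = ζ.re ^ 2 + ζ.im ^ 2 := by
    rw [← Complex.normSq_eq_norm_sq, Complex.normSq_apply]
    ring
  rw [h1, lineL_apply]
  simp only [nsq, J, dotProduct, Prod.fst_add, Prod.snd_add, Prod.smul_fst, Prod.smul_snd,
    Pi.add_apply, Pi.smul_apply, Pi.neg_apply, smul_eq_mul]
  rw [← Finset.sum_add_distrib, ← Finset.sum_add_distrib, Finset.mul_sum]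
  refine Finset.sum_congr rfl fun i _ => ?_
  ring

theorem cavg_harm {H : ℂ → ℝ} {ζ₀ : ℂ} {s : ℝ} (hs : 0 < s)
    (hH : ∀ z ∈ Metric.closedBall ζ₀ s, InnerProductSpace.HarmonicAt H z) :
    cavg (fun ζ => H (ζ₀ + s * ζ)) 1 = H ζ₀ := by
  have h := InnerProductSpace.HarmonicOnNhd.circleAverage_eq (f := H) (c := ζ₀) (R := s)
    (fun z hz => hH z (by rwa [abs_of_pos hs] at hz))
  rw [← h, Real.circleAverage_def, cavg, smul_eq_mul]
  simp only [circleMap, Complex.ofReal_one, one_mul]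

theorem mem_circle {ζ₀ : ℂ} {s : ℝ} (hs : 0 < s) (θ : ℝ) :
    ζ₀ + s * (((1 : ℝ) : ℂ) * Complex.exp (θ * Complex.I)) ∈ Metric.closedBall ζ₀ s := by
  rw [mem_closedBall_iff_norm, add_sub_cancel_left, Complex.ofReal_one, one_mul, norm_mul,
    Complex.norm_exp_ofReal_mul_I, mul_one, Complex.norm_real, Real.norm_of_nonneg hs.le]

/-- Hadamard's theorem on an annulus. -/
theorem annulus {φ : ℂ → ℝ} {a b A₁ A₃ : ℝ} (ha : 0 < a) (hab : a < b)
    (hφ : ContinuousOn φ (Metric.closedBall 0 b))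
    (hsub : ∀ (ζ₀ : ℂ) (s : ℝ), 0 < s → Metric.closedBall ζ₀ s ⊆ Metric.closedBall 0 b →
      φ ζ₀ ≤ cavg (fun ζ => φ (ζ₀ + s * ζ)) 1)
    (h1 : ∀ ζ : ℂ, ‖ζ‖ = a → φ ζ ≤ A₁) (h3 : ∀ ζ : ℂ, ‖ζ‖ = b → φ ζ ≤ A₃) {ζ₁ : ℂ}
    (h1a : a ≤ ‖ζ₁‖) (h1b : ‖ζ₁‖ ≤ b) :
    φ ζ₁ * Real.log (b / a) ≤ A₁ * Real.log (b / ‖ζ₁‖) + A₃ * Real.log (‖ζ₁‖ / a) := by
  have hb : 0 < b := ha.trans hab
  have hL : 0 < Real.log (b / a) := Real.log_pos ((one_lt_div ha).2 hab)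
  -- the harmonic majorant
  set c₁ : ℝ := (A₃ - A₁) / Real.log (b / a) with hc₁
  set c₀ : ℝ := A₁ - c₁ * Real.log a with hc₀
  set h : ℂ → ℝ := fun ζ => c₀ + c₁ * Real.log ‖ζ‖ with hh
  have hlab : Real.log (b / a) = Real.log b - Real.log a := Real.log_div hb.ne' ha.ne'
  have hval : ∀ ζ : ℂ, a ≤ ‖ζ‖ → h ζ * Real.log (b / a) =
      A₁ * Real.log (b / ‖ζ‖) + A₃ * Real.log (‖ζ‖ / a) := by
    intro ζ hζ
    have h0 : 0 < ‖ζ‖ := ha.trans_le hζ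
    rw [Real.log_div hb.ne' h0.ne', Real.log_div h0.ne' ha.ne', hh, hc₀, hc₁, hlab]
    have h2 : Real.log b - Real.log a ≠ 0 := by rw [← hlab]; exact hL.ne'
    field_simp
    ring
  have hha : ∀ ζ : ℂ, ‖ζ‖ = a → h ζ = A₁ := by
    intro ζ hζ
    simp only [hh, hζ, hc₀]
    ring
  have hhb : ∀ ζ : ℂ, ‖ζ‖ = b → h ζ = A₃ := by
    intro ζ hζ
    have h2 : Real.log b - Real.log a ≠ 0 := by rw [← hlab]; exact hL.ne'
    simp only [hh, hζ, hc₀, hc₁, hlab]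
    field_simp
    ring
  rw [← hval ζ₁ h1a]
  refine mul_le_mul_of_nonneg_right ?_ hL.le
  by_contra hcon
  push Not at hcon
  set δ := φ ζ₁ - h ζ₁ with hδ
  have hδ0 : 0 < δ := sub_pos.2 hcon
  set ε := δ / (2 * b ^ 2) with hε
  have hε0 : 0 < ε := by positivity
  have hεb : ε * b ^ 2 < δ := by
    rw [hε]
    field_simp
    linarith
  set K : Set ℂ := {ζ | a ≤ ‖ζ‖ ∧ ‖ζ‖ ≤ b} with hK
  have hKb : K ⊆ Metric.closedBall 0 b := fun ζ hζ => by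
    rw [mem_closedBall_zero_iff]
    exact hζ.2
  have hKc : IsCompact K := by
    refine (isCompact_closedBall (0 : ℂ) b).of_isClosed_subset ?_ hKb
    exact (isClosed_le continuous_const continuous_norm).inter
      (isClosed_le continuous_norm continuous_const)
  have hcont : ContinuousOn (fun ζ : ℂ => φ ζ - h ζ + ε * ‖ζ‖ ^ 2) K := by
    refine ((hφ.mono hKb).sub ?_).add (by fun_prop)
    refine continuousOn_const.add (continuousOn_const.mul ?_)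
    refine ContinuousOn.log (by fun_prop) fun ζ hζ => ?_
    exact (ha.trans_le hζ.1).ne'
  obtain ⟨ζ₀, hζ₀, hmax⟩ := hKc.exists_isMaxOn ⟨ζ₁, h1a, h1b⟩ hcont
  have hm : ∀ ζ ∈ K, φ ζ - h ζ + ε * ‖ζ‖ ^ 2 ≤ φ ζ₀ - h ζ₀ + ε * ‖ζ₀‖ ^ 2 := fun ζ hζ => hmax hζ
  have hbig : δ ≤ φ ζ₀ - h ζ₀ + ε * ‖ζ₀‖ ^ 2 := by
    have := hm ζ₁ ⟨h1a, h1b⟩
    have h2 : 0 ≤ ε * ‖ζ₁‖ ^ 2 := by positivity
    linarith
  have hn2 : ε * ‖ζ₀‖ ^ 2 ≤ ε * b ^ 2 :=
    mul_le_mul_of_nonneg_left (pow_le_pow_left₀ (norm_nonneg _) hζ₀.2 2) hε0.le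
  have hlt1 : a < ‖ζ₀‖ := by
    refine lt_of_le_of_ne hζ₀.1 fun e => ?_
    have h2 := h1 ζ₀ e.symm
    have h4 := hha ζ₀ e.symm
    linarith
  have hlt2 : ‖ζ₀‖ < b := by
    refine lt_of_le_of_ne hζ₀.2 fun e => ?_
    have h2 := h3 ζ₀ e
    have h4 := hhb ζ₀ e
    linarith
  -- a small circle around `ζ₀`
  obtain ⟨s, hs0, hs1, hs2⟩ : ∃ s : ℝ, 0 < s ∧ s < ‖ζ₀‖ - a ∧ s < b - ‖ζ₀‖ := by
    refine ⟨min (‖ζ₀‖ - a) (b - ‖ζ₀‖) / 2, ?_, ?_, ?_⟩
    · have : 0 < min (‖ζ₀‖ - a) (b - ‖ζ₀‖) := lt_min (sub_pos.2 hlt1) (sub_pos.2 hlt2)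
      positivity
    · have : 0 < min (‖ζ₀‖ - a) (b - ‖ζ₀‖) := lt_min (sub_pos.2 hlt1) (sub_pos.2 hlt2)
      have h2 := min_le_left (‖ζ₀‖ - a) (b - ‖ζ₀‖)
      linarith
    · have : 0 < min (‖ζ₀‖ - a) (b - ‖ζ₀‖) := lt_min (sub_pos.2 hlt1) (sub_pos.2 hlt2)
      have h2 := min_le_right (‖ζ₀‖ - a) (b - ‖ζ₀‖)
      linarith
  have hball : Metric.closedBall ζ₀ s ⊆ K := by
    intro w hw
    rw [mem_closedBall_iff_norm] at hw
    have e1 : ‖ζ₀‖ - ‖w‖ ≤ ‖w - ζ₀‖ := by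
      rw [norm_sub_rev]
      exact norm_sub_norm_le _ _
    have e2 : ‖w‖ - ‖ζ₀‖ ≤ ‖w - ζ₀‖ := norm_sub_norm_le _ _
    exact ⟨by linarith, by linarith⟩
  -- the harmonic function
  set H : ℂ → ℝ := fun w => h w - 2 * ε * ((starRingEnd ℂ ζ₀) * w).re with hH
  have hharm : ∀ z ∈ Metric.closedBall ζ₀ s, InnerProductSpace.HarmonicAt H z := by
    intro z hz
    have hz0 : z ≠ 0 := by
      rintro rfl
      have := (hball hz).1
      rw [norm_zero] at this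
      linarith
    have e1 : InnerProductSpace.HarmonicAt (fun w : ℂ => Real.log ‖w‖) z :=
      AnalyticAt.harmonicAt_log_norm (f := fun w => w) (by fun_prop) hz0
    have e2 : InnerProductSpace.HarmonicAt (fun w : ℂ => ((starRingEnd ℂ ζ₀) * w).re) z :=
      AnalyticAt.harmonicAt_re (f := fun w => (starRingEnd ℂ ζ₀) * w) (by fun_prop)
    have e3 : H = (fun _ => c₀) + c₁ • (fun w : ℂ => Real.log ‖w‖) +
        (-(2 * ε)) • (fun w : ℂ => ((starRingEnd ℂ ζ₀) * w).re) := by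
      funext w
      simp only [hH, hh, Pi.add_apply, Pi.smul_apply, smul_eq_mul]
      ring
    rw [e3]
    exact ((InnerProductSpace.harmonicAt_const c₀).add (e1.const_smul)).add e2.const_smul
  have hsq : ∀ w : ℂ, ‖w - ζ₀‖ ^ 2 = ‖w‖ ^ 2 - 2 * ((starRingEnd ℂ ζ₀) * w).re + ‖ζ₀‖ ^ 2 := by
    intro w
    rw [← Complex.normSq_eq_norm_sq, ← Complex.normSq_eq_norm_sq, ← Complex.normSq_eq_norm_sq,
      Complex.normSq_sub]
    have : (w * (starRingEnd ℂ) ζ₀).re = ((starRingEnd ℂ) ζ₀ * w).re := by rw [mul_comm]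
    rw [this]
    ring
  have hH0 : H ζ₀ = h ζ₀ - 2 * ε * ‖ζ₀‖ ^ 2 := by
    have := hsq ζ₀
    rw [sub_self, norm_zero] at this
    simp only [hH]
    nlinarith
  have hcirc : ∀ θ : ℝ, φ (ζ₀ + s * (((1 : ℝ) : ℂ) * Complex.exp (θ * Complex.I))) ≤
      H (ζ₀ + s * (((1 : ℝ) : ℂ) * Complex.exp (θ * Complex.I))) +
        (φ ζ₀ - H ζ₀ - ε * s ^ 2) := by
    intro θ
    set w := ζ₀ + s * (((1 : ℝ) : ℂ) * Complex.exp (θ * Complex.I)) with hw
    have hws : ‖w - ζ₀‖ = s := by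
      rw [hw, add_sub_cancel_left, Complex.ofReal_one, one_mul, norm_mul,
        Complex.norm_exp_ofReal_mul_I, mul_one, Complex.norm_real, Real.norm_of_nonneg hs0.le]
    have e1 := hm w (hball (mem_circle hs0 θ))
    have e2 := hsq w
    rw [hws] at e2
    rw [hH0]
    simp only [hH]
    nlinarith
  have hcb : Metric.closedBall ζ₀ s ⊆ Metric.closedBall 0 b := hball.trans hKb
  have hc1 : Continuous fun θ : ℝ =>
      φ (ζ₀ + s * (((1 : ℝ) : ℂ) * Complex.exp (θ * Complex.I))) :=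
    hφ.comp_continuous (by fun_prop) fun θ => hcb (mem_circle hs0 θ)
  have hc2 : Continuous fun θ : ℝ =>
      H (ζ₀ + s * (((1 : ℝ) : ℂ) * Complex.exp (θ * Complex.I))) := by
    have : ContinuousOn H (Metric.closedBall ζ₀ s) := fun z hz =>
      ((hharm z hz).1.continuousAt).continuousWithinAt
    exact this.comp_continuous (by fun_prop) fun θ => mem_circle hs0 θ
  have hfin := cavg_le (G := fun ζ => φ (ζ₀ + s * ζ)) (G' := fun ζ => H (ζ₀ + s * ζ)) (r := 1)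
    hc1 hc2 hcirc
  rw [cavg_harm hs0 hharm] at hfin
  have hlast := hsub ζ₀ s hs0 hcb
  have : 0 < ε * s ^ 2 := by positivity
  linarith

end Three

open Three in
theorem three_balls {m : ℕ} {u : Cn m → ℝ} {V : Set (Cn m)} (hV : IsOpen V) (hu : PshC u V)
    {x : Cn m} {r₁ r₂ r₃ A₁ A₃ : ℝ} (h0 : 0 < r₁) (h12 : r₁ < r₂) (h23 : r₂ < r₃)
    (hsub : {y | nsq (y - x) ≤ r₃ ^ 2} ⊆ V) (h1 : ∀ y, nsq (y - x) ≤ r₁ ^ 2 → u y ≤ A₁)
    (h3 : ∀ y, nsq (y - x) ≤ r₃ ^ 2 → u y ≤ A₃) : ∀ y, nsq (y - x) ≤ r₂ ^ 2 →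
      u y * Real.log (r₃ / r₁) ≤ A₁ * Real.log (r₃ / r₂) + A₃ * Real.log (r₂ / r₁) := by
  intro y hy
  have hr2 : 0 < r₂ := h0.trans h12
  have hr3 : 0 < r₃ := hr2.trans h23
  have hl1 : 0 < Real.log (r₃ / r₂) := Real.log_pos ((one_lt_div hr2).2 h23)
  have hl2 : 0 < Real.log (r₂ / r₁) := Real.log_pos ((one_lt_div h0).2 h12)
  have hsum : Real.log (r₃ / r₁) = Real.log (r₃ / r₂) + Real.log (r₂ / r₁) := by
    rw [Real.log_div hr3.ne' h0.ne', Real.log_div hr3.ne' hr2.ne', Real.log_div hr2.ne' h0.ne']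
    ring
  have hy3 : u y ≤ A₃ := h3 y (hy.trans (pow_le_pow_left₀ hr2.le h23.le 2))
  rcases le_total A₃ A₁ with hA | hA
  · rw [hsum]
    nlinarith [mul_le_mul_of_nonneg_right (hy3.trans hA) hl1.le,
      mul_le_mul_of_nonneg_right hy3 hl2.le]
  rcases le_or_gt (nsq (y - x)) (r₁ ^ 2) with hy1 | hy1
  · have e1 := h1 y hy1
    rw [hsum]
    nlinarith [mul_le_mul_of_nonneg_right e1 hl1.le, mul_le_mul_of_nonneg_right (e1.trans hA) hl2.le]
  set e : Cn m := y - x with he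
  set ρ : ℝ := Real.sqrt (nsq e) with hρ
  have hn0 : 0 < nsq e := (pow_pos h0 2).trans hy1
  have hρ0 : 0 < ρ := Real.sqrt_pos.2 hn0
  have hρ2 : ρ ^ 2 = nsq e := Real.sq_sqrt hn0.le
  have hρ1 : r₁ < ρ := by
    refine lt_of_pow_lt_pow_left₀ 2 hρ0.le ?_
    rw [hρ2]
    exact hy1
  have hρr : ρ ≤ r₂ := by
    refine le_of_sq_le_sq ?_ hr2.le
    rw [hρ2]
    exact hy
  have hnl : ∀ ζ : ℂ, nsq (line x e ζ - x) = (‖ζ‖ * ρ) ^ 2 := by
    intro ζ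
    rw [line_eq, add_sub_cancel_left, nsq_lineL, mul_pow, hρ2]
  have hmem : ∀ ζ : ℂ, ‖ζ‖ ≤ r₃ / ρ → line x e ζ ∈ V := by
    intro ζ hζ
    refine hsub ?_
    show nsq (line x e ζ - x) ≤ r₃ ^ 2
    rw [hnl]
    refine pow_le_pow_left₀ (by positivity) ?_ 2
    rwa [le_div_iff₀ hρ0] at hζ
  have key := annulus (φ := fun ζ => u (line x e ζ)) (a := r₁ / ρ) (b := r₃ / ρ) (A₁ := A₁)
    (A₃ := A₃) (ζ₁ := 1) (by positivity) (by gcongr; exact h12.trans h23)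
    (hu.1.comp (contDiff_line x e).continuous.continuousOn fun ζ hζ =>
      hmem ζ (mem_closedBall_zero_iff.1 hζ))
    (by
      intro ζ₀ s hs hball
      have h5 := hu.2 (line x e ζ₀) (s • e) (by
        intro ζ hζ
        rw [line_smul, line_eq (line x e ζ₀), ← line_add]
        refine hmem _ (mem_closedBall_zero_iff.1 (hball ?_))
        rw [mem_closedBall_iff_norm, add_sub_cancel_left, norm_mul, Complex.norm_real,
          Real.norm_of_nonneg hs.le]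
        nlinarith [norm_nonneg ζ])
      refine h5.trans_eq ?_
      congr 1
      funext ζ
      rw [line_smul, line_eq (line x e ζ₀), ← line_add])
    (by
      intro ζ hζ
      refine h1 _ ?_
      rw [hnl, hζ, div_mul_cancel₀ _ hρ0.ne'])
    (by
      intro ζ hζ
      refine h3 _ ?_
      rw [hnl, hζ, div_mul_cancel₀ _ hρ0.ne'])
    (by rw [norm_one, div_le_one hρ0]; exact hρ1.le)
    (by rw [norm_one, one_le_div hρ0]; exact hρr.trans h23.le)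
  simp only [norm_one] at key
  have hline : line x e 1 = y := by
    rw [line_eq, lineL_one, he, add_sub_cancel]
  rw [hline, div_div_div_cancel_right₀ hρ0.ne'] at key
  have hk1 : Real.log (r₃ / ρ / 1) = Real.log (r₃ / r₂) + Real.log (r₂ / ρ) := by
    rw [div_one, Real.log_div hr3.ne' hρ0.ne', Real.log_div hr3.ne' hr2.ne',
      Real.log_div hr2.ne' hρ0.ne']
    ring
  have hk2 : Real.log (1 / (r₁ / ρ)) = Real.log (r₂ / r₁) - Real.log (r₂ / ρ) := by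
    rw [one_div_div, Real.log_div hρ0.ne' h0.ne', Real.log_div hr2.ne' h0.ne',
      Real.log_div hr2.ne' hρ0.ne']
    ring
  rw [hk1, hk2] at key
  have hk3 : 0 ≤ Real.log (r₂ / ρ) := Real.log_nonneg ((one_le_div hρ0).2 hρr)
  nlinarith [mul_nonneg hk3 (sub_nonneg.2 hA)]

end Pool.Agent.KRFH
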