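import Pool.Agent.Work.MP_a2bf38_gt.L.Setup
import Pool.Agent.Work.MP_a2bf38_gt.K.PshC
import Pool.Agent.Work.MP_a2bf38_gt.K.Fib
import Pool.Agent.Work.MP_a2bf38_gt.K.DropLocal
import Pool.Agent.Work.MP_a2bf38_gt.I.PshGood

/-!
# The mean value inequality over balls
-/

open scoped ContDiff ENNReal ComplexOrder Topology
open Set MeasureTheory Filter Pool.Agent.ToricKRF Pool.Agent.ToricKRF.G Pool.Agent.KRFS
  Pool.Agent.KRFF Pool.Agent.KRFG

namespace Pool.Agent.KRFH

namespace BallM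

variable {n : ℕ}

theorem continuous_nsq : Continuous (nsq : Cn n → ℝ) := Fb.contDiff_nsq.continuous

/-- smooth functions with non-negative Levi form -/
theorem pshC_of_levz {G : Cn n → ℝ} {V : Set (Cn n)} (hV : IsOpen V) (hG : ContDiffOn ℝ ∞ G V)
    (hp : ∀ z ∈ V, ∀ u, 0 ≤ levz G u z) : PshC G V := by
  refine pshC_of_touch hV hG.continuousOn fun z hz _ v => ?_
  have hl : line z v 0 = z := by simp [line]
  refine ⟨fun ζ => G (line z v ζ), ?_, by simp only [hl], Eventually.of_forall fun ζ => le_rfl, ?_⟩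
  · have h1 : ContDiffAt ℝ ∞ G (line z v 0) := by
      rw [hl]
      exact hG.contDiffAt (hV.mem_nhds hz)
    exact (h1.comp (0 : ℂ) (contDiff_line z v).contDiffAt).of_le two_le_infty
  · have hU : IsOpen ((univ : Set ℝ) ×ˢ V) := isOpen_univ.prod hV
    have hf : ContDiffOn ℝ ∞ (fun q : ℝ × Cn n => G q.2) (univ ×ˢ V) :=
      hG.comp contDiffOn_snd fun q hq => hq.2
    have hz' : line z v 0 ∈ V := by
      rw [hl]
      exact hz
    have h1 := lapC_line hU hf (t := 0) (z := z) (v := v) (ζ := 0) ⟨mem_univ _, hz'⟩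
    rw [lev_snd hV hG hz'] at h1
    have h2 : lapC (fun ζ => G (line z v ζ)) 0 = 4 * levz G v (line z v 0) := h1
    rw [h2]
    have := hp _ hz' v
    linarith

theorem nsq_eq_sum (u : Cn n) : nsq u = ∑ j, (u.1 j ^ 2 + u.2 j ^ 2) := by
  simp only [nsq, dotProduct, ← Finset.sum_add_distrib]
  exact Finset.sum_congr rfl fun j _ => by ring

theorem nsq_mulC {a : Fin n → ℂ} (ha : ∀ j, ‖a j‖ = 1) (w : Cn n) : nsq (mulC a w) = nsq w := by
  rw [nsq_eq_sum, nsq_eq_sum]
  refine Finset.sum_congr rfl fun j _ => ?_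
  rw [normSq_mulC, Complex.normSq_eq_norm_sq, ha j]
  ring

theorem nsq_mulC_const (ζ : ℂ) (w : Cn n) : nsq (mulC (fun _ => ζ) w) = ‖ζ‖ ^ 2 * nsq w := by
  rw [nsq_eq_sum, nsq_eq_sum, Finset.mul_sum]
  refine Finset.sum_congr rfl fun j _ => ?_
  rw [normSq_mulC, Complex.normSq_eq_norm_sq]

/-- mean value inequality over balls with centre `0` -/
theorem mean_zero {G : Cn n → ℝ} {r : ℝ} (hB : IsCompact {w : Cn n | nsq w ≤ r ^ 2})
    (hG : ContinuousOn G {w : Cn n | nsq w ≤ r ^ 2})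
    (h : ∀ w, nsq w ≤ r ^ 2 → G 0 ≤ cavg (fun ζ => G (line 0 w ζ)) 1) :
    (volume {w : Cn n | nsq w ≤ r ^ 2}).toReal * G 0 ≤ ∫ w in {w : Cn n | nsq w ≤ r ^ 2}, G w := by
  set B : Set (Cn n) := {w : Cn n | nsq w ≤ r ^ 2} with hBdef
  set a : ℝ → Fin n → ℂ := fun θ _ => Complex.exp (θ * Complex.I) with ha
  have hac : Continuous a := by
    rw [ha]
    fun_prop
  have han : ∀ θ j, ‖a θ j‖ = 1 := fun θ j => Complex.norm_exp_ofReal_mul_I θ
  have hinv : ∀ θ, ∫ w in B, G (mulC (a θ) w) = ∫ w in B, G w := by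
    intro θ
    have h1 := (measurePreserving_mulC (han θ)).setIntegral_preimage_emb
      (measurableEmbedding_mulC (han θ)) G B
    have h2 : (mulC (a θ) : Cn n → Cn n) ⁻¹' B = B := by
      ext w
      change nsq (mulC (a θ) w) ≤ r ^ 2 ↔ nsq w ≤ r ^ 2
      rw [nsq_mulC (han θ)]
    rwa [h2] at h1
  have hpi : (0 : ℝ) < 2 * Real.pi := by positivity
  have hK : IsCompact (Icc (0 : ℝ) (2 * Real.pi) ×ˢ B) := isCompact_Icc.prod hB
  have hcont : ContinuousOn (fun q : ℝ × Cn n => G (mulC (a q.1) q.2))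
      (Icc (0 : ℝ) (2 * Real.pi) ×ˢ B) := by
    refine hG.comp (f := fun q : ℝ × Cn n => mulC (a q.1) q.2) ?_ fun q hq => ?_
    · exact (continuous_mulC.comp ((hac.comp continuous_fst).prodMk continuous_snd)).continuousOn
    · change nsq (mulC (a q.1) q.2) ≤ r ^ 2
      rw [nsq_mulC (han _)]
      exact hq.2
  have hint : Integrable (fun q : ℝ × Cn n => G (mulC (a q.1) q.2))
      ((volume.restrict (Icc (0 : ℝ) (2 * Real.pi))).prod (volume.restrict B)) := by
    rw [Measure.prod_restrict]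
    exact hcont.integrableOn_compact hK
  have h1 := integral_integral_swap (f := fun θ w => G (mulC (a θ) w)) hint
  have h2 : ∫ θ in Icc (0 : ℝ) (2 * Real.pi), ∫ w in B, G (mulC (a θ) w) =
      2 * Real.pi * ∫ w in B, G w := by
    simp only [hinv]
    rw [setIntegral_const]
    simp [hpi.le]
  rw [h2] at h1
  have h3 : ∫ w in B, 2 * Real.pi * G 0 ≤
      ∫ w in B, ∫ θ in Icc (0 : ℝ) (2 * Real.pi), G (mulC (a θ) w) := by
    refine setIntegral_mono_on ?_ ?_ hB.measurableSet fun w hw => ?_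
    · exact integrableOn_const hB.measure_lt_top.ne
    · exact hint.integral_prod_right
    · have h4 := h w hw
      have h5 : ∀ θ : ℝ, line 0 w (((1 : ℝ) : ℂ) * Complex.exp (θ * Complex.I)) =
          mulC (a θ) w := by
        intro θ
        rw [line_eq_mulC, Complex.ofReal_one, one_mul, zero_add]
      have h6 := cavg_mul (fun ζ => G (line 0 w ζ)) 1
      simp only [h5] at h6
      rw [intervalIntegral.integral_of_le hpi.le, ← integral_Icc_eq_integral_Ioc] at h6
      rw [← h6]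
      exact mul_le_mul_of_nonneg_left h4 hpi.le
  rw [setIntegral_const, ← h1, smul_eq_mul] at h3
  have h7 : volume.real B * (2 * Real.pi * G 0) = 2 * Real.pi * ((volume B).toReal * G 0) := by
    rw [Measure.real]
    ring
  rw [h7] at h3
  exact le_of_mul_le_mul_left h3 hpi

/-- mean value inequality over balls -/
theorem mean_ball {G : Cn n → ℝ} {V : Set (Cn n)} (hG : PshC G V) {z : Cn n} {r : ℝ} (hr : 0 ≤ r)
    (hsub : {w | nsq (w - z) ≤ r ^ 2} ⊆ V) :
    (volume {w : Cn n | nsq (w - z) ≤ r ^ 2}).toReal * G z ≤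
      ∫ w in {w : Cn n | nsq (w - z) ≤ r ^ 2}, G w := by
  have := PshG.isAddHaar_Cn n
  have hB : IsCompact {w : Cn n | nsq w ≤ r ^ 2} := by
    refine Metric.isCompact_of_isClosed_isBounded
      (isClosed_le continuous_nsq continuous_const)
      ((Metric.isBounded_closedBall (x := (0 : Cn n)) (r := r)).subset fun w hw => ?_)
    rw [mem_closedBall_zero_iff]
    exact norm_le_of_nsq_le hr hw
  have hm : ∀ w : Cn n, nsq w ≤ r ^ 2 → z + w ∈ V := fun w hw => hsub (by
    change nsq (z + w - z) ≤ r ^ 2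
    rwa [add_sub_cancel_left])
  have hline : ∀ (w : Cn n) (ζ : ℂ), z + line 0 w ζ = line z w ζ := by
    intro w ζ
    rw [line_eq_mulC, line_eq_mulC, zero_add]
  have h1 := mean_zero (G := fun w => G (z + w)) hB
    (hG.1.comp (by fun_prop) fun w hw => hm w hw) (by
      intro w hw
      have h2 := hG.2 z w (by
        intro ζ hζ
        rw [line_eq_mulC]
        refine hm _ ?_
        rw [nsq_mulC_const]
        have h3 : ‖ζ‖ ^ 2 ≤ 1 := by nlinarith [norm_nonneg ζ]
        have h4 := Fb.nsq_nonneg w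
        nlinarith)
      simp only [hline, add_zero]
      exact h2)
  have hset : {w : Cn n | nsq (w - z) ≤ r ^ 2} = (fun x => z + x) '' {w : Cn n | nsq w ≤ r ^ 2} := by
    ext w
    constructor
    · intro hw
      exact ⟨w - z, hw, by simp⟩
    · rintro ⟨x, hx, rfl⟩
      change nsq (z + x - z) ≤ r ^ 2
      rwa [add_sub_cancel_left]
  have e1 : ∫ x in {w : Cn n | nsq w ≤ r ^ 2}, G (z + x) =
      ∫ x in (fun x => z + x) '' {w : Cn n | nsq w ≤ r ^ 2}, G x :=
    ((measurePreserving_add_left (volume : Measure (Cn n)) z).setIntegral_image_emb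
      (measurableEmbedding_addLeft z) (fun x => G x) _).symm
  have e2 : volume ((fun x => z + x) '' {w : Cn n | nsq w ≤ r ^ 2}) =
      volume {w : Cn n | nsq w ≤ r ^ 2} := by
    rw [image_add_left, measure_preimage_add]
  rw [hset, ← e1, e2]
  simpa using h1

end BallM

section Flow

variable {n : ℕ} {M : Type} [TopologicalSpace M] [CompactSpace M] [T2Space M] {κ : Type} {T : ℝ}
  (F : Flow n M κ T)

open BallM

/-- `φ` in a chart -/
theorem BallM.phi_slice {n : ℕ} {M : Type} [TopologicalSpace M] {κ : Type} {T : ℝ}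
    (F : Flow n M κ T) (c : κ) {t : ℝ} (ht : t ∈ Ico 0 T) :
    ContDiffOn ℝ ∞ (fun z => F.phi c (t, z)) (F.e c).target := by
  obtain ⟨U, hU, hsub, hs⟩ := F.phi_isFun.smooth c
  exact hs.comp (contDiff_const.prodMk contDiff_id).contDiffOn fun z hz => hsub ⟨ht, hz⟩

/-- lower bound of the Levi form of `φ` on a compact subset of a chart -/
theorem BallM.levz_phi_ge {n : ℕ} {M : Type} [TopologicalSpace M] {κ : Type} {T : ℝ}
    (F : Flow n M κ T) (hT : 0 < T) (c : κ) {A : Set (Cn n)} (hA : IsCompact A)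
    (hAt : A ⊆ (F.e c).target) : ∃ C : ℝ, 0 ≤ C ∧ ∀ t ∈ Ico 0 T, ∀ z ∈ A, ∀ v,
      -(C * nsq v) ≤ levz (fun z => F.phi c (t, z)) v z := by
  have h0 : (0 : ℝ) ∈ Ico 0 T := ⟨le_rfl, hT⟩
  obtain ⟨U, hU, hsub, hs⟩ := F.krf.smooth c
  have hsl : ContDiffOn ℝ ∞ (fun z => F.ψ c (0, z)) (F.e c).target :=
    hs.comp (contDiff_const.prodMk contDiff_id).contDiffOn fun z hz => hsub ⟨h0, hz⟩
  have key : ∀ f : Cn n → ℝ, ContDiffOn ℝ ∞ f (F.e c).target → ∃ C : ℝ, 0 ≤ C ∧
      ∀ z ∈ A, ∀ v, levz f v z ≤ C * nsq v := by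
    intro f hf
    exact quad_le hA (fun x v => levz f v x) (fun _ v => nsq v)
      ((levz_continuousOn (F.e c).open_target hf).mono (prod_mono hAt le_rfl))
      ((continuous_nsq.comp continuous_snd).continuousOn)
      (fun x hx r v => Bd.levz_smul (F.e c).open_target hf (hAt hx) r v)
      (fun x _ r v => by
        simp only [nsq, Prod.smul_fst, Prod.smul_snd, dotProduct_smul, smul_dotProduct, smul_eq_mul]
        ring)
      (fun x _ v hv => Fb.nsq_pos hv)
  obtain ⟨C₁, hC₁, h₁⟩ := key _ hsl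
  obtain ⟨C₂, hC₂, h₂⟩ := key _ (F.smooth c)
  refine ⟨C₁ + C₂, by positivity, fun t ht z hz v => ?_⟩
  obtain ⟨U', hU', hsub', hs'⟩ := F.phi_isFun.smooth c
  have hzt := hAt hz
  have e1 : levz (fun z => F.phi c (t, z)) v z = lev (F.phi c) v (t, z) :=
    levz_slice hU' hs' (hsub' ⟨ht, hzt⟩) v
  have e2 : levz (fun z => F.ψ c (0, z)) v z = lev (F.ψ c) v (0, z) :=
    levz_slice hU hs (hsub ⟨h0, hzt⟩) v
  rw [e1, F.lev_phi ht hzt]
  have h3 : 0 ≤ lev (F.ψ c) v (t, z) := Fb.lev_nonneg F ht hzt v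
  have h4 := h₁ z hz v
  have h5 := h₂ z hz v
  rw [e2] at h4
  have h6 : 0 ≤ t / T := div_nonneg ht.1 hT.le
  have h7 : t / T ≤ 1 := (div_le_one hT).2 ht.2.le
  have h8 := Fb.nsq_nonneg v
  have h9 : (1 - t / T) * lev (F.ψ c) v (0, z) ≤ C₁ * nsq v := by
    calc (1 - t / T) * lev (F.ψ c) v (0, z) ≤ (1 - t / T) * (C₁ * nsq v) :=
          mul_le_mul_of_nonneg_left h4 (by linarith)
      _ ≤ 1 * (C₁ * nsq v) := mul_le_mul_of_nonneg_right (by linarith) (by positivity)
      _ = C₁ * nsq v := one_mul _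
  have h10 : t / T * levz (F.Θ c) v z ≤ C₂ * nsq v := by
    calc t / T * levz (F.Θ c) v z ≤ t / T * (C₂ * nsq v) := mul_le_mul_of_nonneg_left h5 h6
      _ ≤ 1 * (C₂ * nsq v) := mul_le_mul_of_nonneg_right h7 (by positivity)
      _ = C₂ * nsq v := one_mul _
  linarith

/-- `L/BallM.lean`: from the mean value inequality for `φ + C |z|^2` -/
theorem Flow.ball_good {c : κ} {z₀ : Cn n} (hz₀ : z₀ ∈ (F.e c).target) : ∃ C r₀ δ : ℝ, 0 < C ∧
    0 < r₀ ∧ 0 < δ ∧ {z | nsq (z - z₀) ≤ (2 * r₀) ^ 2} ⊆ (F.e c).target ∧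
    ∀ t ∈ Ico 0 T, T - t < δ → ∀ z, nsq (z - z₀) ≤ r₀ ^ 2 → ∀ r ∈ Ioc (0 : ℝ) r₀,
      C * r ^ 2 ≤ √(T - t) → ENNReal.ofReal (C⁻¹ * √(T - t) * r ^ (2 * n)) ≤
        volume {w | nsq (w - z) ≤ r ^ 2 ∧
          F.Phi t ((F.e c).symm z) - √(T - t) ≤ F.Phi t ((F.e c).symm w)} := by
  have := PshG.isAddHaar_Cn n
  obtain ⟨R, hR, hRc, hRt⟩ := exists_ball ((F.e c).open_target.mem_nhds hz₀)
  have hsub2 : {z | nsq (z - z₀) ≤ (2 * (R / 3)) ^ 2} ⊆ (F.e c).target := by
    refine Subset.trans (fun z hz => ?_) hRt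
    have hz' : nsq (z - z₀) ≤ (2 * (R / 3)) ^ 2 := hz
    change nsq (z - z₀) ≤ R ^ 2
    nlinarith
  by_cases hT : 0 < T
  swap
  · exact ⟨1, R / 3, 1, one_pos, by positivity, one_pos, hsub2,
      fun t ht => absurd (lt_of_le_of_lt ht.1 ht.2) hT⟩
  obtain ⟨C₃, hC₃, hlev⟩ := BallM.levz_phi_ge F hT c hRc hRt
  obtain ⟨K₀, hK₀, hK⟩ := F.Phi_bound
  have hcpt : IsCompact {z' : Cn n | nsq z' ≤ 1} := by
    refine Metric.isCompact_of_isClosed_isBounded
      (isClosed_le continuous_nsq continuous_const)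
      ((Metric.isBounded_closedBall (x := (0 : Cn n)) (r := 1)).subset fun w hw => ?_)
    rw [mem_closedBall_zero_iff]
    exact norm_le_of_nsq_le zero_le_one (by rw [one_pow]; exact hw)
  set w₀ : ℝ := (volume {z' : Cn n | nsq z' ≤ 1}).toReal with hw₀
  have hw₀0 : 0 < w₀ := by
    refine ENNReal.toReal_pos ?_ hcpt.measure_lt_top.ne
    have h1 : IsOpen {z' : Cn n | nsq z' < 1} := isOpen_lt continuous_nsq continuous_const
    have h2 : 0 < volume {z' : Cn n | nsq z' < 1} := h1.measure_pos volume ⟨0, by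
      change nsq (0 : Cn n) < 1
      simp [nsq]⟩
    exact (lt_of_lt_of_le h2 (measure_mono fun x (hx : nsq x < 1) => (le_of_lt hx : nsq x ≤ 1))).ne'
  set C : ℝ := 2 * C₃ + 1 + 2 * (2 * K₀ + 1) / w₀ with hC
  have hC0 : 0 < C := by positivity
  refine ⟨C, R / 3, 1, hC0, by positivity, one_pos, hsub2, ?_⟩
  intro t ht ht1 z hz r hr hCr
  set ε : ℝ := √(T - t) with hε
  have hTt : 0 < T - t := by linarith [ht.2]
  have hε0 : 0 < ε := Real.sqrt_pos.2 hTt
  have hε1 : ε ≤ 1 := by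
    rw [hε]
    exact Real.sqrt_le_one.2 ht1.le
  have hr0 : 0 < r := hr.1
  set V : Set (Cn n) := {w | nsq (w - z₀) < R ^ 2} with hV
  have hVo : IsOpen V := isOpen_lt (continuous_nsq.comp (by fun_prop)) continuous_const
  have hVR : V ⊆ {w | nsq (w - z₀) ≤ R ^ 2} := fun w (hw : nsq (w - z₀) < R ^ 2) =>
    (le_of_lt hw : nsq (w - z₀) ≤ R ^ 2)
  have hVt : V ⊆ (F.e c).target := hVR.trans hRt
  set B : Set (Cn n) := {w | nsq (w - z) ≤ r ^ 2} with hB
  have hin : ∀ w ∈ B, nsq (w - z₀) ≤ (2 * (R / 3)) ^ 2 := by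
    intro w hw
    have h1 : nsq (w - z) ≤ r ^ 2 := hw
    have h2 : nsq (w - z) ≤ (R / 3) ^ 2 := by
      have := hr.2
      nlinarith
    have h3 : nsq (w - z₀) ≤ 2 * nsq (w - z) + 2 * nsq (z - z₀) := by
      have h4 : ∀ a b : Cn n, nsq (a + b) ≤ 2 * nsq a + 2 * nsq b := by
        intro a b
        rw [nsq_eq_sum, nsq_eq_sum, nsq_eq_sum, Finset.mul_sum, Finset.mul_sum,
          ← Finset.sum_add_distrib]
        refine Finset.sum_le_sum fun i _ => ?_
        simp only [Prod.fst_add, Prod.snd_add, Pi.add_apply]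
        nlinarith [sq_nonneg (a.1 i - b.1 i), sq_nonneg (a.2 i - b.2 i)]
      have := h4 (w - z) (z - z₀)
      rwa [sub_add_sub_cancel] at this
    nlinarith
  have hBV : B ⊆ V := by
    intro w hw
    have h1 := hin w hw
    change nsq (w - z₀) < R ^ 2
    nlinarith
  have hBc : IsCompact B := hRc.of_isClosed_subset
    (isClosed_le (continuous_nsq.comp (by fun_prop)) continuous_const) (hBV.trans hVR)
  -- the plurisubharmonic function
  have hφs : ContDiffOn ℝ ∞ (fun w => F.phi c (t, w)) (F.e c).target := BallM.phi_slice F c ht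
  have hnz : ContDiff ℝ ∞ (fun w : Cn n => C₃ * nsq (w - z)) :=
    contDiff_const.mul (Fb.contDiff_nsq.comp (contDiff_id.sub contDiff_const))
  have hpsh : PshC (fun w => F.phi c (t, w) + C₃ * nsq (w - z)) V := by
    refine pshC_of_levz hVo ((hφs.mono hVt).add hnz.contDiffOn) fun w hw u => ?_
    have d1 : ContDiffAt ℝ 2 (fun w => F.phi c (t, w)) w :=
      (hφs.contDiffAt ((F.e c).open_target.mem_nhds (hVt hw))).of_le two_le_infty
    have d2 : ContDiffAt ℝ 2 (fun w : Cn n => nsq (w - z)) w :=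
      ((Fb.contDiff_nsq.comp (contDiff_id.sub contDiff_const)).contDiffAt).of_le two_le_infty
    rw [Bd.levz_add d1 (contDiffAt_const.mul d2), Bd.levz_const_mul _ d2, Gap.levz_nsq]
    have := hlev t ht w (hVR hw) u
    linarith
  have hmean := mean_ball hpsh hr0.le hBV
  have hvol : (volume B).toReal = r ^ (2 * n) * w₀ := by
    rw [hB, PshG.volume_nball n z hr0, ENNReal.toReal_mul, ENNReal.toReal_ofReal (by positivity)]
  have hz' : z ∈ B := by
    change nsq (z - z) ≤ r ^ 2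
    simp only [sub_self, nsq, Prod.fst_zero, Prod.snd_zero, dotProduct_zero, add_zero]
    positivity
  have hPhi : ∀ w ∈ B, F.Phi t ((F.e c).symm w) = F.phi c (t, w) := by
    intro w hw
    have hwt := hVt (hBV hw)
    rw [F.Phi_eq ht ((F.e c).map_target hwt), (F.e c).right_inv hwt]
  set A : Set (Cn n) := {w | nsq (w - z) ≤ r ^ 2 ∧
    F.Phi t ((F.e c).symm z) - ε ≤ F.Phi t ((F.e c).symm w)} with hA
  have hAB : A ⊆ B := fun w hw => hw.1
  have hφc : ContinuousOn (fun w => F.phi c (t, w)) B :=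
    hφs.continuousOn.mono (hBV.trans hVt)
  have hAe : A = B ∩ (fun w => F.phi c (t, w)) ⁻¹' Ici (F.phi c (t, z) - ε) := by
    ext w
    constructor
    · rintro ⟨h1, h2⟩
      rw [hPhi z hz', hPhi w h1] at h2
      exact ⟨h1, h2⟩
    · rintro ⟨h1, h2⟩
      refine ⟨h1, ?_⟩
      rw [hPhi z hz', hPhi w h1]
      exact h2
  have hAm : MeasurableSet A := by
    rw [hAe]
    exact (hφc.preimage_isClosed_of_isClosed hBc.isClosed isClosed_Ici).measurableSet
  have hAfin : volume A ≠ ⊤ := (lt_of_le_of_lt (measure_mono hAB) hBc.measure_lt_top).ne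
  have hK' : ∀ w ∈ B, |F.phi c (t, w)| ≤ K₀ := by
    intro w hw
    rw [← hPhi w hw]
    exact hK t ht _
  -- the upper bound of the integral
  have hup : ∫ w in B, (F.phi c (t, w) + C₃ * nsq (w - z)) ≤
      ∫ w in B, ((F.phi c (t, z) - ε + C₃ * r ^ 2) + A.indicator (fun _ => 2 * K₀ + 1) w) := by
    refine setIntegral_mono_on ?_ ?_ hBc.measurableSet fun w hw => ?_
    · exact (hφc.add hnz.continuous.continuousOn).integrableOn_compact hBc
    · refine (integrableOn_const hBc.measure_lt_top.ne).add ?_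
      exact ((integrableOn_const (C := 2 * K₀ + 1) hBc.measure_lt_top.ne).indicator hAm)
    · have h1 : nsq (w - z) ≤ r ^ 2 := hw
      have h2 : C₃ * nsq (w - z) ≤ C₃ * r ^ 2 := mul_le_mul_of_nonneg_left h1 hC₃
      have h3 := abs_le.1 (hK' w hw)
      have h4 := abs_le.1 (hK' z hz')
      by_cases hwA : w ∈ A
      · rw [indicator_of_mem hwA]
        linarith
      · rw [indicator_of_notMem hwA]
        have h5 : F.phi c (t, w) < F.phi c (t, z) - ε := by
          by_contra h6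
          rw [not_lt] at h6
          exact hwA (by rw [hAe]; exact ⟨hw, h6⟩)
        linarith
  have hint2 : ∫ w in B, ((F.phi c (t, z) - ε + C₃ * r ^ 2) + A.indicator (fun _ => 2 * K₀ + 1) w) =
      (volume B).toReal * (F.phi c (t, z) - ε + C₃ * r ^ 2) + (volume A).toReal * (2 * K₀ + 1) := by
    have i1 : Integrable (fun _ : Cn n => F.phi c (t, z) - ε + C₃ * r ^ 2)
        (volume.restrict B) := integrableOn_const hBc.measure_lt_top.ne
    have i2 : Integrable (fun w => A.indicator (fun _ => 2 * K₀ + 1) w) (volume.restrict B) :=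
      (integrableOn_const (C := 2 * K₀ + 1) hBc.measure_lt_top.ne).indicator hAm
    rw [integral_add i1 i2, setIntegral_const, setIntegral_indicator hAm, setIntegral_const, inter_eq_right.2 hAB]
    rfl
  have hz0 : nsq (z - z) = 0 := by simp [nsq]
  have hfin : (volume B).toReal * (ε - C₃ * r ^ 2) ≤ (volume A).toReal * (2 * K₀ + 1) := by
    have h1 := hmean.trans (hup.trans_eq hint2)
    simp only [hz0, mul_zero, add_zero] at h1
    have h2 : (volume B).toReal * (F.phi c (t, z) - ε + C₃ * r ^ 2) =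
      (volume B).toReal * F.phi c (t, z) - (volume B).toReal * (ε - C₃ * r ^ 2) := by ring
    rw [h2] at h1
    linarith
  have hε2 : ε / 2 ≤ ε - C₃ * r ^ 2 := by
    have h1 : 2 * C₃ * r ^ 2 ≤ C * r ^ 2 := by
      refine mul_le_mul_of_nonneg_right ?_ (by positivity)
      have : 0 ≤ 2 * (2 * K₀ + 1) / w₀ := by positivity
      linarith
    linarith
  have hfin2 : C⁻¹ * ε * r ^ (2 * n) ≤ (volume A).toReal := by
    have h1 : r ^ (2 * n) * w₀ * (ε / 2) ≤ (volume A).toReal * (2 * K₀ + 1) := by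
      rw [← hvol]
      exact (mul_le_mul_of_nonneg_left hε2 ENNReal.toReal_nonneg).trans hfin
    have h2 : 2 * (2 * K₀ + 1) / w₀ ≤ C := by linarith
    have h3 : 2 * (2 * K₀ + 1) ≤ C * w₀ := by
      rwa [div_le_iff₀ hw₀0] at h2
    rw [mul_assoc, inv_mul_le_iff₀ hC0]
    have h4 : 0 < 2 * (2 * K₀ + 1) := by positivity
    have h5 : 0 ≤ ε * r ^ (2 * n) := by positivity
    have h6 : ε * r ^ (2 * n) * (2 * (2 * K₀ + 1)) ≤ C * (volume A).toReal * (2 * (2 * K₀ + 1)) := by
      calc ε * r ^ (2 * n) * (2 * (2 * K₀ + 1)) ≤ ε * r ^ (2 * n) * (C * w₀) :=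
            mul_le_mul_of_nonneg_left h3 h5
        _ = 2 * C * (r ^ (2 * n) * w₀ * (ε / 2)) := by ring
        _ ≤ 2 * C * ((volume A).toReal * (2 * K₀ + 1)) :=
            mul_le_mul_of_nonneg_left h1 (by positivity)
        _ = C * (volume A).toReal * (2 * (2 * K₀ + 1)) := by ring
    exact le_of_mul_le_mul_right h6 h4
  calc ENNReal.ofReal (C⁻¹ * ε * r ^ (2 * n)) ≤ ENNReal.ofReal (volume A).toReal :=
        ENNReal.ofReal_le_ofReal hfin2
    _ = volume A := ENNReal.ofReal_toReal hAfin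

end Flow

end Pool.Agent.KRFH
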