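import Pool.Agent.Work.MP_a2bf38_gt.L.Setup
import Pool.Agent.Work.MP_a2bf38_gt.K.Fib
import Pool.Agent.Work.MP_a2bf38_gt.K.GapOf

/-!
# Basic facts about the models
-/

open scoped ContDiff ENNReal ComplexOrder Topology
open Set MeasureTheory Filter Pool.Agent.ToricKRF Pool.Agent.ToricKRF.G Pool.Agent.KRFS
  Pool.Agent.KRFF Pool.Agent.KRFG

namespace Pool.Agent.KRFH

section

variable {n m : ℕ} {M Y X W : Type} [TopologicalSpace M] [TopologicalSpace Y]
  [TopologicalSpace X] [TopologicalSpace W] {κ P Q ι : Type} {T : ℝ}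
  (F : Mod n m M Y X W κ P Q ι T)

theorem Mod.symm_mem (c : ι) {x : Cn n} (hx : x ∈ opd 10) : (F.a c).symm x ∈ (F.a c).source :=
  (F.a c).map_target (by rw [F.model.target c]; exact hx)

theorem Mod.a_symm (c : ι) {x : Cn n} (hx : x ∈ opd 10) : F.a c ((F.a c).symm x) = x :=
  (F.a c).right_inv (by rw [F.model.target c]; exact hx)

theorem Mod.lab_symm (c : ι) {x : Cn n} (hx : x ∈ opd 10) : F.lab ((F.a c).symm x) = F.pc c :=
  F.model.lab_eq c _ (F.symm_mem c hx)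

theorem Mod.mem_src (c : ι) {x : Cn n} (hx : x ∈ opd 10) :
    F.π ((F.a c).symm x) ∈ (F.e (F.al c)).source :=
  F.model.mem c _ (F.symm_mem c hx)

theorem Mod.piC_mem (c : ι) {x : Cn n} (hx : x ∈ opd 10) : F.piC c x ∈ (F.e (F.al c)).target :=
  (F.e (F.al c)).map_source (F.mem_src c hx)

theorem Mod.symm_piC (c : ι) {x : Cn n} (hx : x ∈ opd 10) :
    (F.e (F.al c)).symm (F.piC c x) = F.π ((F.a c).symm x) :=
  (F.e (F.al c)).left_inv (F.mem_src c hx)

theorem Mod.piC_hol (c : ι) : HolOn (F.piC c) (opd 10) := F.model.holo c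

theorem Mod.Phi_piC {t : ℝ} (ht : t ∈ Ico 0 T) (c : ι) {x : Cn n} (hx : x ∈ opd 10) :
    F.Phi t (F.π ((F.a c).symm x)) = F.phi (F.al c) (t, F.piC c x) :=
  F.Phi_eq ht (F.mem_src c hx)

theorem Mod.phi_slice (c : κ) {t : ℝ} (ht : t ∈ Ico 0 T) :
    ContDiffOn ℝ ∞ (fun z => F.phi c (t, z)) (F.e c).target := by
  obtain ⟨U, hU, hsub, hs⟩ := F.phi_isFun.smooth c
  exact hs.comp (contDiff_const.prodMk contDiff_id).contDiffOn fun z hz => hsub ⟨ht, hz⟩

theorem Mod.psi_slice (c : κ) {t : ℝ} (ht : t ∈ Ico 0 T) :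
    ContDiffOn ℝ ∞ (fun z => F.ψ c (t, z)) (F.e c).target := by
  obtain ⟨U, hU, hsub, hs⟩ := F.krf.smooth c
  exact hs.comp (contDiff_const.prodMk contDiff_id).contDiffOn fun z hz => hsub ⟨ht, hz⟩

theorem Mod.smooth_W' {t : ℝ} (ht : t ∈ Ico 0 T) (c : ι) :
    ContDiffOn ℝ ∞ (fun x => F.phi (F.al c) (t, F.piC c x)) (opd 10) :=
  (F.phi_slice (F.al c) ht).comp (F.piC_hol c).1 fun _ hx => F.piC_mem c hx

theorem Mod.smooth_W {t : ℝ} (ht : t ∈ Ico 0 T) (c : ι) :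
    ContDiffOn ℝ ∞ (fun x => F.Phi t (F.π ((F.a c).symm x))) (opd 10) :=
  (F.smooth_W' ht c).congr fun _ hx => F.Phi_piC ht c hx

/-- `π` in the charts of `W` is continuous -/
theorem Mod.pi_continuousOn (c : ι) : ContinuousOn (fun x => F.π ((F.a c).symm x)) (opd 10) := by
  have h1 : ContinuousOn (fun x => F.e (F.al c) (F.π ((F.a c).symm x))) (opd 10) :=
    (F.model.holo c).1.continuousOn
  have h3 := (F.e (F.al c)).continuousOn_symm.comp h1
    (fun x hx => (F.e (F.al c)).map_source (F.mem_src c hx))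
  exact h3.congr fun x hx => ((F.e (F.al c)).left_inv (F.mem_src c hx)).symm

/-- the base coordinates of the points of a chart of `W`, as a function of the coordinates -/
noncomputable def Mod.zc (c : ι) (x : Cn n) : Cn m :=
  ofC fun i => ((F.s c i : ℂ) * prow (F.row c) i x) ^ F.N (F.pc c) i

theorem Mod.cc_zc (c : ι) (x : Cn n) (i : Fin m) :
    cc (F.zc c x) i = ((F.s c i : ℂ) * prow (F.row c) i x) ^ F.N (F.pc c) i := rfl

/-- the coordinates in `X` of the points of a chart of `W` -/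
theorem Mod.base_chart (c : ι) {x : Cn n} (hx : x ∈ opd 10) :
    F.g ((F.a c).symm x) ∈ (F.b (F.pc c)).source ∧ F.yc c x = F.zc c x := by
  have h1 := F.model.base ((F.a c).symm x)
  rw [F.lab_symm c hx] at h1
  refine ⟨h1.1, ?_⟩
  have h2 : cc (F.yc c x) = fun i => ((F.s c i : ℂ) * prow (F.row c) i x) ^ F.N (F.pc c) i := by
    funext i
    unfold Mod.yc
    rw [h1.2 i, F.model.mono c _ (F.symm_mem c hx) i, F.a_symm c hx]
  unfold Mod.zc
  rw [← h2, Sup.ofC_cc]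

theorem Mod.cc_yc (c : ι) {x : Cn n} (hx : x ∈ opd 10) (i : Fin m) :
    cc (F.yc c x) i = ((F.s c i : ℂ) * prow (F.row c) i x) ^ F.N (F.pc c) i := by
  rw [(F.base_chart c hx).2, F.cc_zc]

theorem Mod.yc_mem (c : ι) {x : Cn n} (hx : x ∈ opd 10) : F.yc c x ∈ (F.b (F.pc c)).target :=
  (F.b (F.pc c)).map_source (F.base_chart c hx).1

theorem Mod.g_chart (c : ι) {x : Cn n} (hx : x ∈ opd 10) :
    F.g ((F.a c).symm x) = (F.b (F.pc c)).symm (F.yc c x) :=
  ((F.b (F.pc c)).left_inv (F.base_chart c hx).1).symm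

theorem Mod.f_chart (c : ι) {x : Cn n} (hx : x ∈ opd 10) :
    F.f (F.π ((F.a c).symm x)) = F.σ ((F.b (F.pc c)).symm (F.yc c x)) := by
  rw [← F.model.comm, F.g_chart c hx]

theorem Mod.mem_target_b (a : Q) {z : Cn m} (hz : nsq z < 100) : z ∈ (F.b a).target :=
  F.modif.target a hz

/-- `h > 0` outside of the coordinate hyperplanes -/
theorem Mod.h_pos (a : Q) {z : Cn m} (hz : nsq z ≤ 25) (h0 : ∀ i, cc z i ≠ 0) :
    0 < F.h (F.σ ((F.b a).symm z)) := by
  obtain ⟨c, k, hc, h⟩ := F.modif.h_low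
  refine lt_of_lt_of_le (mul_pos hc (pow_pos ?_ k)) (h a z hz)
  exact Finset.prod_pos fun i _ => norm_pos_iff.2 (h0 i)

theorem Mod.yc_ne (c : ι) {x : Cn n} (hx : x ∈ opd 10) (h0 : ∀ i, prow (F.row c) i x ≠ 0)
    (i : Fin m) : cc (F.yc c x) i ≠ 0 := by
  rw [F.cc_yc c hx]
  exact pow_ne_zero _ (mul_ne_zero (Complex.ofReal_ne_zero.2 (F.model.s_pos c i).ne') (h0 i))

theorem Mod.h_ne_of_prow (c : ι) {x : Cn n} (hx : x ∈ opd 10)
    (h0 : ∀ i, prow (F.row c) i x ≠ 0) (h25 : nsq (F.yc c x) ≤ 25) :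
    F.h (F.f (F.π ((F.a c).symm x))) ≠ 0 := by
  rw [F.f_chart c hx]
  exact (F.h_pos (F.pc c) h25 (F.yc_ne c hx h0)).ne'

theorem Mod.Phi_continuous {t : ℝ} (ht : t ∈ Ico 0 T) : Continuous (F.Phi t) := by
  rw [← continuousOn_univ]
  exact ContinuousOn.comp (f := fun p : M => (t, p)) F.toFlow.Phi_continuousOn
    (by fun_prop) fun p _ => ⟨ht, mem_univ _⟩

/-- every point of `M` lifts to the core of a chart of `W` -/
theorem Mod.exists_lift (p : M) : ∃ (c : ι) (x : Cn n), x ∈ cpd (k := n) 1 ∧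
    F.π ((F.a c).symm x) = p ∧ nsq (F.yc c x) ≤ 1 := by
  obtain ⟨w, hw, h1⟩ := F.model.surj p
  obtain ⟨c, hc, hc1⟩ := F.model.cover w (h1.trans (by norm_num))
  refine ⟨c, F.a c w, hc1, ?_, ?_⟩
  · rw [(F.a c).left_inv hc, hw]
  · unfold Mod.yc
    rw [(F.a c).left_inv hc, ← F.model.lab_eq c w hc]
    exact h1

/-- the points of the fibre over a point `x` of `X` with `h (σ x) ≠ 0` lift to the core of a chart
over `x` -/
theorem Mod.exists_lift_over {j : Q} {x : X} (hx : x ∈ (F.b j).source)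
    (h25 : nsq (F.b j x) ≤ 25) (hh : F.h (F.σ x) ≠ 0) {p : M} (hp : F.f p = F.σ x) {t : Cn m}
    (ht : ∀ i, cc t i ^ F.N j i = cc (F.b j x) i) :
    ∃ w c, F.lab w = j ∧ F.τ w = t ∧ F.π w = p ∧ F.g w = x ∧ w ∈ (F.a c).source ∧
      F.a c w ∈ cpd 1 ∧ F.pc c = j := by
  obtain ⟨w, hw1, hw2, hw3⟩ := F.model.onto j x hx h25 hh t ht p hp
  have h1 := F.model.base w
  rw [hw1] at h1
  have h2 : F.b j (F.g w) = F.b j x := by
    refine ER.cn_ext fun i => ?_
    rw [h1.2 i, hw2, ht i]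
  have h3 : F.g w = x := (F.b j).injOn h1.1 hx h2
  obtain ⟨c, hc1, hc2⟩ := F.model.cover w (by rw [hw1, h3]; exact h25)
  exact ⟨w, c, hw1, hw2, hw3, h3, hc1, hc2, by rw [← F.model.lab_eq c w hc1, hw1]⟩

theorem Mod.exists_root (j : Q) (z : Cn m) : ∃ t : Cn m, ∀ i, cc t i ^ F.N j i = cc z i :=
  KRFG.exists_root _ (F.model.N_pos j) z

end

end Pool.Agent.KRFH
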