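import Pool.Agent.Work.MP_a2bf38_gt.L.Setup
import Pool.Agent.Work.MP_a2bf38_gt.K.ContactA

/-!
# The contact set with an abstract comparison function on `M`
-/

open scoped ContDiff ENNReal ComplexOrder Topology
open Set MeasureTheory Filter Pool.Agent.ToricKRF Pool.Agent.ToricKRF.G Pool.Agent.KRFS
  Pool.Agent.KRFF Pool.Agent.KRFG

namespace Pool.Agent.KRFH

namespace CtM

/-- a finite cover by coordinate balls, such that the balls of twice the radius are in given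
neighbourhoods of their centres -/
theorem exists_balls {n : ℕ} {M : Type} [TopologicalSpace M] [CompactSpace M] {κ : Type}
    {e : κ → OpenPartialHomeomorph M (Cn n)} {c : M → κ} (hc : ∀ x, x ∈ (e (c x)).source)
    {G : M → Set (Cn n)} (hG : ∀ x, G x ∈ 𝓝 (e (c x) x)) :
    ∃ (I : Finset M) (r : M → ℝ),
      (∀ x, 0 < r x ∧ ∀ z, nsq (z - e (c x) x) ≤ (2 * r x) ^ 2 → z ∈ G x) ∧
      ∀ p, ∃ x ∈ I, p ∈ (e (c x)).source ∧ nsq (e (c x) p - e (c x) x) ≤ r x ^ 2 := by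
  have h1 : ∀ x, ∃ r > 0, ∀ z, nsq (z - e (c x) x) ≤ (2 * r) ^ 2 → z ∈ G x := by
    intro x
    obtain ⟨r, hr, -, hsub⟩ := exists_ball (hG x)
    refine ⟨r / 2, by positivity, fun z hz => hsub ?_⟩
    have h4 : 2 * (r / 2) = r := by ring
    rw [h4] at hz
    exact hz
  choose r hr hr' using h1
  have h2 : ∀ x, {p | p ∈ (e (c x)).source ∧ nsq (e (c x) p - e (c x) x) ≤ r x ^ 2} ∈ 𝓝 x := by
    intro x
    have h3 := (e (c x)).continuousAt (hc x)
    have h4 : ContinuousAt (fun p => nsq (e (c x) p - e (c x) x)) x :=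
      ContinuousAt.comp (f := fun p => e (c x) p - e (c x) x) (g := nsq)
        Gap.contDiff_nsq'.continuous.continuousAt (h3.sub continuousAt_const)
    have h5 : nsq (e (c x) x - e (c x) x) < r x ^ 2 := by
      rw [sub_self, Gap.nsq_zero]
      have := hr x
      positivity
    filter_upwards [(e (c x)).open_source.mem_nhds (hc x), h4.eventually_lt_const h5] with p hp hp'
    exact ⟨hp, hp'.le⟩
  obtain ⟨I, -, hI⟩ := isCompact_univ.elim_nhds_subcover _ fun x _ => h2 x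
  refine ⟨I, r, fun x => ⟨hr x, hr' x⟩, fun p => ?_⟩
  have h3 := hI (mem_univ p)
  rw [mem_iUnion₂] at h3
  obtain ⟨x, hx, h4, h5⟩ := h3
  exact ⟨x, hx, h4, h5⟩

end CtM

section Flow

variable {n : ℕ} {M : Type} [TopologicalSpace M] {κ : Type} {T : ℝ} (F : Flow n M κ T)

theorem CtM.det_le {c : κ} {t : ℝ} (ht : t ∈ Ico 0 T) {z : Cn n} (hz : z ∈ (F.e c).target)
    {Cd C : ℝ} (hd : F.dphi c (t, z) ≤ Cd) (hΩ : F.Ω c z ≤ C) :
    (cHess (F.ψ c) (t, z)).det.re ≤ C * Real.exp Cd := by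
  have h1 := Gap.det_pos' F ht hz
  have h2 := F.vol.pos c z hz
  have h3 : Real.log (cHess (F.ψ c) (t, z)).det.re ≤ Real.log (F.Ω c z) + Cd := by
    have : F.dphi c (t, z) = Real.log (cHess (F.ψ c) (t, z)).det.re - Real.log (F.Ω c z) := rfl
    linarith
  have h4 := Real.exp_le_exp.2 h3
  rw [Real.exp_log h1, Real.exp_add, Real.exp_log h2] at h4
  exact h4.trans (mul_le_mul_of_nonneg_right hΩ (Real.exp_pos _).le)

theorem CtM.Phi_continuous {t : ℝ} (ht : t ∈ Ico 0 T) : Continuous (F.Phi t) := by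
  rw [← continuousOn_univ]
  exact ContinuousOn.comp (f := fun p : M => (t, p)) F.Phi_continuousOn
    (by fun_prop) fun p _ => ⟨ht, mem_univ _⟩

/-- the estimate on a ball -/
theorem CtM.contact_ball {Ca : ℝ} (hCa : 0 < Ca)
    (habp : ∀ (v : Cn n → ℝ) (f : ℝ × Cn n → ℝ) (t : ℝ)
      (V : Set (Cn n)) (U : Set (ℝ × Cn n)) (z₀ : Cn n) (r ε D₁ : ℝ),
      IsOpen V → ContDiffOn ℝ ∞ v V → IsOpen U → ContDiffOn ℝ ∞ f U → 0 < r → 0 < ε →
      {z | nsq (z - z₀) ≤ r ^ 2} ⊆ V →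
      (∀ z, nsq (z - z₀) ≤ r ^ 2 → (t, z) ∈ U ∧ (cHess f (t, z)).PosDef ∧
        (cHess f (t, z)).det.re ≤ D₁ ∧ ∀ u, levz v u z ≤ lev f u (t, z)) →
      (∀ z, nsq (z - z₀) = r ^ 2 → v z₀ + ε ≤ v z) →
      ENNReal.ofReal ((ε / r) ^ (2 * n)) ≤ ENNReal.ofReal (Ca * D₁ ^ 2) *
        volume {z | nsq (z - z₀) ≤ r ^ 2 ∧ v z ≤ v z₀ + ε})
    {t : ℝ} (ht : t ∈ Ico 0 T) {c : κ} {z₀ : Cn n} {r C₁ D₁ : ℝ} (hr : 0 < r)
    (hC₁ : 0 < C₁) (hD₁ : 0 < D₁) {R : M → ℝ} {V : Set (Cn n)} (hV : IsOpen V)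
    (hVt : V ⊆ (F.e c).target)
    (hR : PshC (fun w => R ((F.e c).symm w) + t / T * F.Θ c w) V)
    (hball : ∀ z, nsq (z - z₀) ≤ r ^ 2 → z ∈ V ∧
      (∀ u, nsq u ≤ C₁ * lev (F.ψ c) u (0, z)) ∧ (cHess (F.ψ c) (t, z)).det.re ≤ D₁)
    (hmin : ∀ z, nsq (z - z₀) ≤ r ^ 2 →
      F.Phi t ((F.e c).symm z₀) - R ((F.e c).symm z₀) ≤
        F.Phi t ((F.e c).symm z) - R ((F.e c).symm z)) :
    ∃ S ⊆ {z | nsq (z - z₀) ≤ r ^ 2}, MeasurableSet S ∧
      ENNReal.ofReal (((1 - t / T) * r / (2 * C₁)) ^ (2 * n) / (Ca * D₁ ^ 2)) ≤ volume S ∧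
      ∀ z ∈ S, F.Phi t ((F.e c).symm z) - R ((F.e c).symm z) ≤
        F.Phi t ((F.e c).symm z₀) - R ((F.e c).symm z₀) + (1 - t / T) / C₁ * r ^ 2 := by
  have hT : 0 < T := ht.1.trans_lt ht.2
  have hd0 : 0 < 1 - t / T := by
    rw [sub_pos, div_lt_one hT]
    exact ht.2
  set Λ : ℝ := (1 - t / T) / C₁ with hΛ
  have hΛ0 : 0 < Λ := by positivity
  set ε : ℝ := Λ * r ^ 2 / 2 with hε
  set δ : ℝ := Λ * r ^ 2 / 4 with hδ
  have hε0 : 0 < ε := by positivity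
  have hδ0 : 0 < δ := by positivity
  set B : Set (Cn n) := {z | nsq (z - z₀) ≤ r ^ 2} with hB
  have hz₀B : z₀ ∈ B := by
    simp only [hB, mem_ofPred_eq, sub_self, Gap.nsq_zero]
    positivity
  have hBV : B ⊆ V := fun z hz => (hball z hz).1
  obtain ⟨u', V', hV', hsubV, hV'V, hu', hpsh, hclose⟩ :=
    pshC_mollify hV hR (isCompact_nsq_sub z₀ hr) hBV hδ0
  have hV't : V' ⊆ (F.e c).target := hV'V.trans hVt
  obtain ⟨Uφ, hUφ, hUφs, hφ⟩ := F.phi_isFun.smooth c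
  have hSφ : ContDiffOn ℝ ∞ (fun z => F.phi c (t, z)) V' :=
    hφ.comp (contDiff_const.prodMk contDiff_id).contDiffOn fun z hz => hUφs ⟨ht, hV't hz⟩
  have hSK : ContDiffOn ℝ ∞ (fun z => F.Θ c z) V' := (F.smooth c).mono hV't
  have hSn : ContDiffOn ℝ ∞ (fun z => nsq (z - z₀)) V' :=
    (Gap.contDiff_nsq'.comp (contDiff_id.sub contDiff_const)).contDiffOn
  set v : Cn n → ℝ := fun z => F.phi c (t, z) + t / T * F.Θ c z - u' z +
    Λ * nsq (z - z₀) with hv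
  have hvs : ContDiffOn ℝ ∞ v V' :=
    ((hSφ.add (contDiffOn_const.mul hSK)).sub hu').add (contDiffOn_const.mul hSn)
  have hPhi : ∀ z ∈ B, F.Phi t ((F.e c).symm z) = F.phi c (t, z) := fun z hz => by
    rw [F.Phi_eq ht ((F.e c).map_target (hVt (hBV hz))), (F.e c).right_inv (hVt (hBV hz))]
  -- comparison of `v`
  have hvle : ∀ z ∈ B, v z ≤ F.Phi t ((F.e c).symm z) - R ((F.e c).symm z) + δ +
      Λ * nsq (z - z₀) := by
    intro z hz
    have h1 := (abs_le.1 (hclose z (hsubV hz))).1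
    rw [hPhi z hz]
    simp only [hv]
    linarith
  have hlev : ∀ z ∈ B, F.Phi t ((F.e c).symm z) - R ((F.e c).symm z) - δ +
      Λ * nsq (z - z₀) ≤ v z := by
    intro z hz
    have h1 := (abs_le.1 (hclose z (hsubV hz))).2
    rw [hPhi z hz]
    simp only [hv]
    linarith
  have hv0 : v z₀ ≤ F.Phi t ((F.e c).symm z₀) - R ((F.e c).symm z₀) + δ := by
    have h1 := hvle z₀ hz₀B
    rw [sub_self, Gap.nsq_zero] at h1
    linarith
  obtain ⟨U, hU, hUsub, hψU⟩ := F.krf.smooth c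
  have hABP := habp v (F.ψ c) t V' U z₀ r ε D₁ hV' hvs hU hψU hr hε0 hsubV
    (by
      intro z hz
      have hzV' := hsubV hz
      have hzt := hV't hzV'
      obtain ⟨-, g1, g2⟩ := hball z hz
      refine ⟨hUsub ⟨ht, hzt⟩, F.krf.pos c t ht z hzt, g2, fun u => ?_⟩
      have hn : V' ∈ 𝓝 z := hV'.mem_nhds hzV'
      have a1 : ContDiffAt ℝ 2 (fun z => F.phi c (t, z)) z :=
        (hSφ.contDiffAt hn).of_le two_le_infty
      have a2 : ContDiffAt ℝ 2 (fun z => F.Θ c z) z := (hSK.contDiffAt hn).of_le two_le_infty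
      have a3 : ContDiffAt ℝ 2 (fun z => u' z) z := (hu'.contDiffAt hn).of_le two_le_infty
      have a5 : ContDiffAt ℝ 2 (fun z => nsq (z - z₀)) z := (hSn.contDiffAt hn).of_le two_le_infty
      have a2' : ContDiffAt ℝ 2 (fun z => t / T * F.Θ c z) z := contDiffAt_const.mul a2
      have a5' : ContDiffAt ℝ 2 (fun z => Λ * nsq (z - z₀)) z := contDiffAt_const.mul a5
      have e0 : levz v u z = levz (fun z => F.phi c (t, z)) u z +
          t / T * levz (fun z => F.Θ c z) u z - levz (fun z => u' z) u z +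
          Λ * nsq u := by
        rw [hv, Bd.levz_add ((a1.add a2').sub a3) a5', Bd.levz_sub (a1.add a2') a3,
          Bd.levz_add a1 a2', Bd.levz_const_mul _ a2, Bd.levz_const_mul _ a5, Gap.levz_nsq]
      rw [e0, levz_slice hUφ hφ (hUφs ⟨ht, hzt⟩), F.lev_phi ht hzt]
      have e2 : 0 ≤ levz (fun z => u' z) u z := hpsh _ hzV' _
      have e3 : Λ * nsq u ≤ (1 - t / T) * lev (F.ψ c) u (0, z) := by
        have g5 := g1 u
        rw [hΛ, div_mul_eq_mul_div, div_le_iff₀ hC₁]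
        calc (1 - t / T) * nsq u ≤ (1 - t / T) * (C₁ * lev (F.ψ c) u (0, z)) :=
              mul_le_mul_of_nonneg_left g5 hd0.le
          _ = (1 - t / T) * lev (F.ψ c) u (0, z) * C₁ := by ring
      linarith)
    (by
      intro z hz
      have h1 := hlev z hz.le
      have h2 := hmin z hz.le
      rw [hz] at h1
      have h3 : ε + 2 * δ = Λ * r ^ 2 := by
        rw [hε, hδ]
        ring
      linarith)
  refine ⟨{z | nsq (z - z₀) ≤ r ^ 2 ∧ v z ≤ v z₀ + ε}, fun z hz => hz.1, ?_, ?_, ?_⟩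
  · have hBcl : IsClosed B := isClosed_le (continuous_nsq_sub z₀) continuous_const
    have hvc : ContinuousOn v B := hvs.continuousOn.mono hsubV
    have h1 : IsClosed (B ∩ v ⁻¹' Iic (v z₀ + ε)) :=
      hvc.preimage_isClosed_of_isClosed hBcl isClosed_Iic
    exact h1.measurableSet
  · have hpos : 0 < Ca * D₁ ^ 2 := by positivity
    have h1 : ε / r = (1 - t / T) * r / (2 * C₁) := by
      rw [hε, hΛ]
      field_simp
    rw [h1] at hABP
    rw [ENNReal.ofReal_div_of_pos hpos]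
    exact ENNReal.div_le_of_le_mul' hABP
  · intro z hz
    have h1 := hlev z hz.1
    have h2 := hz.2
    have h3 : ε + 2 * δ = Λ * r ^ 2 := by
      rw [hε, hδ]
      ring
    have h4 : 0 ≤ Λ * nsq (z - z₀) := mul_nonneg hΛ0.le (Gap.nsq_nonneg _)
    linarith

end Flow

section Flow

variable {n : ℕ} {M : Type} [TopologicalSpace M] [CompactSpace M] [T2Space M] {κ : Type} {T : ℝ}
  (F : Flow n M κ T)

omit [T2Space M] in
/-- **The contact set** -/
theorem Flow.contact_of_psh (U : κ → Cn n → Set (Cn n))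
    (hU : ∀ c, ∀ z ∈ (F.e c).target, IsOpen (U c z) ∧ z ∈ U c z ∧ U c z ⊆ (F.e c).target) :
    ∃ (c₀ C : ℝ) (A : κ → Set (Cn n)), 0 < c₀ ∧ 0 ≤ C ∧
      {c | (A c).Nonempty}.Finite ∧ (∀ c, IsCompact (A c) ∧ A c ⊆ (F.e c).target) ∧
      ∀ t ∈ Ico 0 T, ∀ R : M → ℝ, Continuous R →
        (∀ c, ∀ z ∈ (F.e c).target,
          PshC (fun w => R ((F.e c).symm w) + t / T * F.Θ c w) (U c z)) →
        ∀ H : ℝ, (∃ p, F.Phi t p ≤ R p - H) →
          ∃ c', ∃ S ⊆ A c', MeasurableSet S ∧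
            ENNReal.ofReal (c₀ * (T - t) ^ (2 * n)) ≤ volume S ∧
            ∀ z ∈ S, F.Phi t ((F.e c').symm z) ≤ R ((F.e c').symm z) - H + C * (T - t) := by
  classical
  by_cases hT : 0 < T
  swap
  · refine ⟨1, 0, fun _ => ∅, one_pos, le_rfl, by simp, fun c => ⟨isCompact_empty,
      empty_subset _⟩, fun t ht => absurd (lt_of_le_of_lt ht.1 ht.2) hT⟩
  obtain ⟨Cd, hCd, hd⟩ := F.dphi_le
  obtain ⟨Ca, hCa, habp⟩ := abp n
  choose ch hsrc using F.atlas.cover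
  have htg : ∀ x, F.e (ch x) x ∈ (F.e (ch x)).target := fun x => (F.e (ch x)).map_source (hsrc x)
  obtain ⟨I, r, hr, hcov⟩ := CtM.exists_balls (e := F.e) (c := ch) hsrc
    (G := fun x => U (ch x) (F.e (ch x) x))
    (fun x => (hU _ _ (htg x)).1.mem_nhds (hU _ _ (htg x)).2.1)
  set K : M → Set (Cn n) := fun x => {z | nsq (z - F.e (ch x) x) ≤ (2 * r x) ^ 2} with hK
  have hKc : ∀ x, IsCompact (K x) := fun x => isCompact_nsq_sub _ (by have := (hr x).1; positivity)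
  have hKU : ∀ x, K x ⊆ U (ch x) (F.e (ch x) x) := fun x z hz => (hr x).2 z hz
  have hKt : ∀ x, K x ⊆ (F.e (ch x)).target := fun x z hz => (hU _ _ (htg x)).2.2 (hKU x hz)
  -- the constants
  obtain ⟨E, hE, hE'⟩ : ∃ E : ℝ, 0 < E ∧ ∀ x : I, (∀ z ∈ K x.1,
      (∀ u, nsq u ≤ E * lev (F.ψ (ch x.1)) u (0, z)) ∧ F.Ω (ch x.1) z ≤ E) ∧
      1 ≤ E * r x.1 ∧ r x.1 ^ 2 ≤ E := by
    refine Gap.exists_finite (Q := fun (x : I) E => (∀ z ∈ K x.1,
      (∀ u, nsq u ≤ E * lev (F.ψ (ch x.1)) u (0, z)) ∧ F.Ω (ch x.1) z ≤ E) ∧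
      1 ≤ E * r x.1 ∧ r x.1 ^ 2 ≤ E) (fun x => ?_) ?_
    · obtain ⟨E, hE, h⟩ := Gap.exists_const_on F hT (ch x.1) (hKc x.1) (hKt x.1)
      have hr0 := (hr x.1).1
      refine ⟨max E (max (r x.1)⁻¹ (r x.1 ^ 2)), fun z hz => ⟨fun u => ?_, ?_⟩, ?_, ?_⟩
      · exact ((h z hz).1 u).trans (mul_le_mul_of_nonneg_right (le_max_left _ _)
          (Gap.lev_psi_nonneg F ⟨le_rfl, hT⟩ (hKt x.1 hz) u))
      · exact (h z hz).2.2.trans (le_max_left _ _)
      · have h1 : (r x.1)⁻¹ ≤ max E (max (r x.1)⁻¹ (r x.1 ^ 2)) :=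
          (le_max_left _ _).trans (le_max_right _ _)
        calc (1 : ℝ) = (r x.1)⁻¹ * r x.1 := (inv_mul_cancel₀ hr0.ne').symm
          _ ≤ _ := mul_le_mul_of_nonneg_right h1 hr0.le
      · exact (le_max_right _ _).trans (le_max_right _ _)
    · intro x E E' hEE' h
      have hr0 := (hr x.1).1
      refine ⟨fun z hz => ⟨fun u => ?_, ?_⟩, ?_, ?_⟩
      · exact ((h.1 z hz).1 u).trans (mul_le_mul_of_nonneg_right hEE'
          (Gap.lev_psi_nonneg F ⟨le_rfl, hT⟩ (hKt x.1 hz) u))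
      · exact (h.1 z hz).2.trans hEE'
      · exact h.2.1.trans (mul_le_mul_of_nonneg_right hEE' hr0.le)
      · exact h.2.2.trans hEE'
  set D₁ : ℝ := E * Real.exp Cd with hD₁
  have hD₁0 : 0 < D₁ := by positivity
  refine ⟨(1 / (2 * T * E ^ 2)) ^ (2 * n) / (Ca * D₁ ^ 2), 1 / T,
    fun c => ⋃ x ∈ I.filter (fun x => ch x = c), K x, by positivity, by positivity,
    ?_, ?_, ?_⟩
  · refine (I.image ch).finite_toSet.subset ?_
    rintro c ⟨z, hz⟩
    rw [mem_iUnion₂] at hz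
    obtain ⟨x, hx, -⟩ := hz
    rw [Finset.mem_filter] at hx
    simp only [Finset.coe_image, mem_image, Finset.mem_coe]
    exact ⟨x, hx⟩
  · intro c
    refine ⟨Finset.isCompact_biUnion _ fun x _ => hKc x, iUnion₂_subset fun x hx => ?_⟩
    rw [Finset.mem_filter] at hx
    rw [← hx.2]
    exact hKt x
  intro t ht R hRc hRpsh H hex
  obtain ⟨p, hp⟩ := hex
  have hx0 : 0 < T - t := by linarith [ht.2]
  set d : ℝ := 1 - t / T with hd_def
  have hd1 : d = (T - t) / T := by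
    rw [hd_def, sub_div, div_self hT.ne']
  have hd0 : 0 < d := by
    rw [hd1]
    positivity
  -- the minimum
  obtain ⟨x₀, hmin⟩ : ∃ x, ∀ x', F.Phi t x - R x ≤ F.Phi t x' - R x' := by
    have hc : Continuous (fun x => F.Phi t x - R x) := (CtM.Phi_continuous F ht).sub hRc
    obtain ⟨x, -, hx⟩ := isCompact_univ.exists_isMinOn ⟨p, mem_univ p⟩ hc.continuousOn
    exact ⟨x, fun x' => hx (mem_univ x')⟩
  have hval : F.Phi t x₀ - R x₀ ≤ -H := by
    have := hmin p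
    linarith
  -- the ball
  obtain ⟨x, hxI, hxs, hxr⟩ := hcov x₀
  obtain ⟨hE1, hE2, hE3⟩ := hE' ⟨x, hxI⟩
  simp only at hE1 hE2 hE3
  have hrx := (hr x).1
  set c' := ch x with hc'
  set z₀ := F.e c' x₀ with hz₀
  have hsz₀ : (F.e c').symm z₀ = x₀ := (F.e c').left_inv hxs
  have hsubK : ∀ z, nsq (z - z₀) ≤ r x ^ 2 → z ∈ K x := fun z hz => Ct.ball_in hxr hz
  obtain ⟨S, hSsub, hSm, hSv, hSle⟩ := CtM.contact_ball F hCa habp ht (c := c') (z₀ := z₀)
    hrx hE hD₁0 (R := R) (V := U c' (F.e c' x)) (hU _ _ (htg x)).1 (hU _ _ (htg x)).2.2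
    (hRpsh c' _ (htg x))
    (by
      intro z hz
      have hzK := hsubK z hz
      have hzt := hKt x hzK
      exact ⟨hKU x hzK, (hE1 z hzK).1, CtM.det_le F ht hzt (hd c' t ht z hzt) (hE1 z hzK).2⟩)
    (by
      intro z _
      rw [hsz₀]
      exact hmin _)
  refine ⟨c', S, fun z hz => ?_, hSm, le_trans (ENNReal.ofReal_le_ofReal ?_) hSv, fun z hz => ?_⟩
  · rw [mem_iUnion₂]
    exact ⟨x, Finset.mem_filter.2 ⟨hxI, rfl⟩, hsubK z (hSsub hz)⟩
  · rw [div_mul_eq_mul_div, ← mul_pow]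
    refine div_le_div_of_nonneg_right ?_ (by positivity)
    refine pow_le_pow_left₀ (by positivity) ?_ _
    change 1 / (2 * T * E ^ 2) * (T - t) ≤ d * r x / (2 * E)
    rw [hd1, div_mul_eq_mul_div, div_mul_eq_mul_div, div_div, one_mul,
      div_le_div_iff₀ (by positivity) (by positivity)]
    have h1 : (T - t) * (T * (2 * E)) * 1 ≤ (T - t) * (T * (2 * E)) * (E * r x) :=
      mul_le_mul_of_nonneg_left hE2 (by positivity)
    nlinarith
  · have h1 := hSle z hz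
    rw [hsz₀] at h1
    have h2 : d / E * r x ^ 2 ≤ d := by
      rw [div_mul_eq_mul_div, div_le_iff₀ hE]
      exact mul_le_mul_of_nonneg_left hE3 hd0.le
    have h9 : 1 / T * (T - t) = d := by
      rw [hd1]
      ring
    rw [h9]
    linarith

end Flow

end Pool.Agent.KRFH
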