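import Pool.Agent.Work.MP_a2bf38_gt.K.Setup
import Pool.Agent.Work.MP_a2bf38_gt.I.NatFlow

/-!
# Fibrations over orbifolds, with fibres of any dimension

`f : M → Y` is a holomorphic map from a compact complex manifold of dimension `n` onto a complex
orbifold `Y` of dimension `m`.  `σ : X → Y` is a modification of `Y`, an isomorphism outside of the
closed set `h = 0`, with `X` a complex manifold, and over the charts of `X` there are semistable models
of `f`.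
-/

open scoped ContDiff ENNReal ComplexOrder
open Set Pool.Agent.ToricKRF Pool.Agent.ToricKRF.G Pool.Agent.KRFS Pool.Agent.KRFF
  Pool.Agent.KRFG

namespace Pool.Agent.KRFH

/-- `q j`, on the ball of radius `10`, are the local uniformizations of the orbifold `Y`: open maps
whose fibres are the orbits of unitary maps.  The images of the unit balls cover `Y`. -/
structure IsOrbifold {Y : Type} [TopologicalSpace Y] {m : ℕ} {P : Type} (q : P → Cn m → Y) :
    Prop where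
  cont : ∀ j, ContinuousOn (q j) {y | nsq y < 100}
  isOpen : ∀ j, ∀ U ⊆ {y : Cn m | nsq y < 100}, IsOpen U → IsOpen (q j '' U)
  cover : ∀ p, ∃ j y, nsq y ≤ 1 ∧ q j y = p
  deck : ∀ j y y', nsq y < 100 → nsq y' < 100 → q j y = q j y' → ∃ A : Cn m →ₗ[ℝ] Cn m,
    (∀ v, nsq (A v) = nsq v) ∧ A y = y' ∧ ∀ v, nsq v < 100 → q j (A v) = q j v
  trans : ∃ C r : ℝ, 0 < C ∧ 0 < r ∧ ∀ j j' y y', nsq y ≤ 25 → nsq y' ≤ 25 → q j y = q j' y' →
    ∀ v, nsq (v - y) ≤ r ^ 2 → ∃ v', nsq (v' - y') ≤ C ^ 2 * nsq (v - y) ∧ q j' v' = q j v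

/-- `L` is a lift of the map `p` to the chart `j`. -/
def IsLift {Y : Type} {m d : ℕ} {P : Type} (q : P → Cn m → Y) (j : P) (p : Cn d → Y)
    (L : Cn d → Cn m) (U : Set (Cn d)) : Prop :=
  HolOn L U ∧ ∀ w ∈ U, nsq (L w) < 100 ∧ q j (L w) = p w

/-- `f : M → Y` is holomorphic and onto.  It lifts locally to the charts of `Y` where `h ≠ 0`, the
set `h ∘ f = 0` is locally contained in the zero set of a holomorphic function which does not vanish
identically, and `f` is Hölder continuous in the charts. -/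
structure IsHolMap {M Y : Type} [TopologicalSpace M] [TopologicalSpace Y] {n m : ℕ} {κ P : Type}
    (e : κ → OpenPartialHomeomorph M (Cn n)) (q : P → Cn m → Y) (h : Y → ℝ)
    (f : M → Y) : Prop where
  cont : Continuous f
  surj : Function.Surjective f
  lift : ∀ c, ∀ z ∈ (e c).target, h (f ((e c).symm z)) ≠ 0 → ∀ j y, nsq y < 100 →
    q j y = f ((e c).symm z) → ∃ (U : Set (Cn n)) (L : Cn n → Cn m), IsOpen U ∧ z ∈ U ∧
      U ⊆ (e c).target ∧ L z = y ∧ IsLift q j (fun w => f ((e c).symm w)) L U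
  gen : ∀ c, ∀ z ∈ (e c).target, ∃ (U : Set (Cn n)) (s : Cn n → ℂ), IsOpen U ∧ z ∈ U ∧
    U ⊆ (e c).target ∧ NF.HolC s U ∧ U ⊆ closure {w | w ∈ U ∧ s w ≠ 0} ∧
      ∀ w ∈ U, s w ≠ 0 → h (f ((e c).symm w)) ≠ 0
  holder : ∀ c, ∀ z ∈ (e c).target, ∃ C β r : ℝ, 0 < C ∧ 0 < β ∧ 0 < r ∧ ∀ v w,
    nsq (v - z) ≤ r ^ 2 → nsq (w - z) ≤ r ^ 2 → ∀ j y, nsq y ≤ 25 → q j y = f ((e c).symm v) →
      ∃ y', nsq (y' - y) ≤ C * nsq (w - v) ^ β ∧ q j y' = f ((e c).symm w)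

/-- `σ : X → Y` is a modification, an isomorphism where `h ≠ 0`.  The function `log (h ∘ σ)` has
logarithmic poles, and `i ∂ ∂bar log (h ∘ σ)` is positive up to the pull-back of a form of `Y`. -/
structure IsModif {Y X : Type} [TopologicalSpace Y] [TopologicalSpace X] {m : ℕ} {P Q : Type}
    (q : P → Cn m → Y) (h : Y → ℝ) (b : Q → OpenPartialHomeomorph X (Cn m)) (σ : X → Y) :
    Prop where
  target : ∀ a, {z | nsq z < 100} ⊆ (b a).target
  cover : ∀ x, ∃ a, x ∈ (b a).source ∧ nsq (b a x) ≤ 1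
  cont : Continuous σ
  h_cont : Continuous h
  h_nonneg : ∀ y, 0 ≤ h y
  inj : ∀ x x', σ x = σ x' → h (σ x) ≠ 0 → x = x'
  lift : ∀ a, ∀ z ∈ (b a).target, h (σ ((b a).symm z)) ≠ 0 → ∀ j y, nsq y < 100 →
    q j y = σ ((b a).symm z) → ∃ L : OpenPartialHomeomorph (Cn m) (Cn m), z ∈ L.source ∧
      L.source ⊆ (b a).target ∧ L z = y ∧ HolOn L.symm L.target ∧
      IsLift q j (fun w => σ ((b a).symm w)) L L.source
  gen : ∀ j (y : Cn m), nsq y < 100 → ∃ (U : Set (Cn m)) (s : Cn m → ℂ), IsOpen U ∧ y ∈ U ∧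
    NF.HolC s U ∧ U ⊆ closure {w | w ∈ U ∧ s w ≠ 0} ∧ ∀ w ∈ U, s w ≠ 0 → h (q j w) ≠ 0
  h_smooth : ∀ a, ContDiffOn ℝ ∞ (fun z => Real.log (h (σ ((b a).symm z))))
    {z | z ∈ (b a).target ∧ h (σ ((b a).symm z)) ≠ 0}
  h_lev : ∃ c C : ℝ, 0 < c ∧ 0 ≤ C ∧ ∀ a, ∀ z, nsq z ≤ 25 → h (σ ((b a).symm z)) ≠ 0 →
    ∀ j (U : Set (Cn m)) (L : Cn m → Cn m), IsOpen U → z ∈ U → nsq (L z) ≤ 49 →
      IsLift q j (fun w => σ ((b a).symm w)) L U → ∀ v,
        c * nsq v ≤ levz (fun z => Real.log (h (σ ((b a).symm z)))) v z +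
          C * nsq (fderiv ℝ L z v)
  h_low : ∃ (c : ℝ) (k : ℕ), 0 < c ∧ ∀ a, ∀ z, nsq z ≤ 25 →
    c * (∏ i, ‖cc z i‖) ^ k ≤ h (σ ((b a).symm z))
  jac : ∃ (c : ℝ) (k : ℕ), 0 < c ∧ ∀ a, ∀ z, nsq z ≤ 25 → h (σ ((b a).symm z)) ≠ 0 →
    ∀ j (U : Set (Cn m)) (L : Cn m → Cn m), IsOpen U → z ∈ U → nsq (L z) ≤ 49 →
      IsLift q j (fun w => σ ((b a).symm w)) L U →
        c * (∏ i, ‖cc z i‖) ^ k ≤ |(fderiv ℝ L z).det|

/-- Semistable models of `f` over the balls `nsq z ≤ 25` of the charts `b j` of `X`: a space `W`, the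
disjoint union of the parts `lab w = j`, with maps `π : W → M`, `g : W → X` and `τ : W → ℂ^m` such
that `σ ∘ g = f ∘ π` and `b j (g w)_i = τ(w)_i ^ N_i`.  The points of the fibre of `f` over `σ x` with
`h (σ x) ≠ 0` lift to `τ = t` for every `t` with `t ^ N = b j x`, and `τ = t` is connected.  In the
charts `a c` of `W`, with the polydisc of radius `10` as target, `π` is holomorphic, with values in the
chart `e (al c)`, and `τ_i` is a positive constant times the product of the coordinates `x_l` with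
`row c l = i`. -/
structure IsModel {M Y X W : Type} [TopologicalSpace M] [TopologicalSpace X] [TopologicalSpace W]
    {n m : ℕ} {κ Q ι : Type} (e : κ → OpenPartialHomeomorph M (Cn n)) (f : M → Y) (h : Y → ℝ)
    (b : Q → OpenPartialHomeomorph X (Cn m)) (σ : X → Y) (a : ι → OpenPartialHomeomorph W (Cn n))
    (al : ι → κ) (lab : W → Q) (π : W → M) (g : W → X) (τ : W → Cn m) (N : Q → Fin m → ℕ)
    (pc : ι → Q) (s : ι → Fin m → ℝ) (row : ι → Fin n → Option (Fin m)) : Prop where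
  comm : ∀ w, σ (g w) = f (π w)
  base : ∀ w, g w ∈ (b (lab w)).source ∧
    ∀ i, cc (b (lab w) (g w)) i = cc (τ w) i ^ N (lab w) i
  N_pos : ∀ j i, 0 < N j i
  target : ∀ c, (a c).target = opd 10
  lab_eq : ∀ c, ∀ w ∈ (a c).source, lab w = pc c
  s_pos : ∀ c i, 0 < s c i
  row_ne : ∀ c i, ∃ l, row c l = some i
  mono : ∀ c, ∀ w ∈ (a c).source, ∀ i, cc (τ w) i = s c i * prow (row c) i (a c w)
  mem : ∀ c, ∀ w ∈ (a c).source, π w ∈ (e (al c)).source
  holo : ∀ c, HolOn (fun x => e (al c) (π ((a c).symm x))) (opd 10)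
  cover : ∀ w, nsq (b (lab w) (g w)) ≤ 25 → ∃ c, w ∈ (a c).source ∧ a c w ∈ cpd 1
  surj : ∀ p, ∃ w, π w = p ∧ nsq (b (lab w) (g w)) ≤ 1
  onto : ∀ j x, x ∈ (b j).source → nsq (b j x) ≤ 25 → h (σ x) ≠ 0 → ∀ t : Cn m,
    (∀ i, cc t i ^ N j i = cc (b j x) i) → ∀ p, f p = σ x → ∃ w, lab w = j ∧ τ w = t ∧ π w = p
  connected : ∀ j t, (∀ i, cc t i ≠ 0) → IsPreconnected {w | lab w = j ∧ τ w = t}

/-- The limit class `[ω(0)] - 2πT c_1(M)` is the pull-back of the Kähler class of `Y`: there is a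
volume form `Ω` on `M` with `ω(0) + T i ∂ ∂bar log Ω = f^* i ∂ ∂bar (K - k₀)`, where `K j` are the
local potentials of an orbifold Kähler form of `Y` and `k₀` is a smooth function on the orbifold, such
that `K - k₀` is plurisubharmonic. -/
structure IsLimit {M Y : Type} [TopologicalSpace M] [TopologicalSpace Y] {n m : ℕ} {κ P : Type}
    (e : κ → OpenPartialHomeomorph M (Cn n)) (q : P → Cn m → Y) (h : Y → ℝ) (f : M → Y)
    (T : ℝ) (ψ : κ → ℝ × Cn n → ℝ) (Ω : κ → Cn n → ℝ) (K : P → Cn m → ℝ) (k₀ : Y → ℝ) :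
    Prop where
  volume : IsVolume e ψ Ω
  smooth : ∀ j, ContDiffOn ℝ ∞ (K j) {y | nsq y < 100}
  smooth₀ : ∀ j, ContDiffOn ℝ ∞ (fun y => k₀ (q j y)) {y | nsq y < 100}
  inv : ∀ j y y', nsq y < 100 → nsq y' < 100 → q j y = q j y' → K j y = K j y'
  psh : ∀ j y, nsq y < 100 → ∀ u, u ≠ 0 → 0 < levz (K j) u y
  psh₀ : ∀ j y, nsq y < 100 → ∀ u, 0 ≤ levz (fun y => K j y - k₀ (q j y)) u y
  eq : ∀ c j, ∀ z ∈ (e c).target, h (f ((e c).symm z)) ≠ 0 → ∀ (U : Set (Cn n))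
    (L : Cn n → Cn m), IsOpen U → z ∈ U → IsLift q j (fun w => f ((e c).symm w)) L U → ∀ u,
      lev (ψ c) u (0, z) + T * levz (fun z => Real.log (Ω c z)) u z =
        levz (fun z => K j (L z) - k₀ (q j (L z))) u z

end Pool.Agent.KRFH
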