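import Pool.Agent.Work.MP_a2bf38_gt.L.Setup
import Pool.Agent.Work.MP_a2bf38_gt.K.DropOf

/-!
# The drop estimate with an abstract comparison function on `M`
-/

open scoped ContDiff ENNReal ComplexOrder Topology
open Set MeasureTheory Filter Pool.Agent.ToricKRF Pool.Agent.ToricKRF.G Pool.Agent.KRFS
  Pool.Agent.KRFF Pool.Agent.KRFG

namespace Pool.Agent.KRFH

section Flow

variable {n : ℕ} {M : Type} [TopologicalSpace M] {κ : Type} {T : ℝ} (F : Flow n M κ T)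

theorem drop_localM {C₁ : ℝ}
    (h1 : ∀ c, ∀ t ∈ Ico 0 T, ∀ z ∈ (F.e c).target,
      (∀ u, 1 / 2 * (1 - t / T) * lev (F.ψ c) u (0, z) ≤ lev (F.ψ c) u (t, z)) →
      n * Real.log (1 - t / T) - C₁ ≤ F.dphi c (t, z))
    {t₀ s₀ δ : ℝ} {R : M → ℝ} (ht₀ : t₀ ∈ Ico 0 T) (hs₀ : s₀ ∈ Ioo t₀ T) (hδ : 0 < δ)
    {x₀ : M} {c : κ} (hc : x₀ ∈ (F.e c).source)
    (hVx : ∃ V : Set (Cn n), IsOpen V ∧ F.e c x₀ ∈ V ∧ V ⊆ (F.e c).target ∧
      PshC (fun w => R ((F.e c).symm w) + t₀ / T * F.Θ c w) V)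
    (hmin : ∀ s ∈ Icc t₀ s₀, ∀ x, F.Phi s₀ x₀ - R x₀ + barr n T C₁ t₀ s₀ ≤
        F.Phi s x - R x + barr n T C₁ t₀ s)
    (hmin0 : ∀ x, F.Phi s₀ x₀ - R x₀ + barr n T C₁ t₀ s₀ + δ ≤ F.Phi t₀ x - R x) : False := by
  have hT : 0 < T := ht₀.1.trans_lt ht₀.2
  have h0T : (0 : ℝ) ∈ Ico 0 T := ⟨le_rfl, hT⟩
  have hsub : ∀ s ∈ Icc t₀ s₀, s ∈ Ico 0 T := fun s hs => ⟨ht₀.1.trans hs.1, hs.2.trans_lt hs₀.2⟩
  have hs₀I : s₀ ∈ Icc t₀ s₀ := ⟨hs₀.1.le, le_rfl⟩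
  set w₀ : ℝ := F.Phi s₀ x₀ - R x₀ + barr n T C₁ t₀ s₀ with hw₀
  set z₀ := F.e c x₀ with hz₀
  have hz₀t : z₀ ∈ (F.e c).target := (F.e c).map_source hc
  have hsz₀ : (F.e c).symm z₀ = x₀ := (F.e c).left_inv hc
  obtain ⟨V₀, hV₀, hz₀V, hV₀t, hpshV⟩ := hVx
  -- a good ball
  obtain ⟨U, hU, hUs, hψ, hp, hU0, hUt⟩ := KRFF.Bd.exists_good F c
  have hψ0 : ContDiffOn ℝ ∞ (fun x => F.ψ c (0, x)) (F.e c).target :=
    hψ.comp (contDiff_const.prodMk contDiff_id).contDiffOn fun z hz => hUs ⟨h0T, hz⟩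
  have hlev0 : ∀ z ∈ (F.e c).target, ∀ u, levz (fun x => F.ψ c (0, x)) u z =
      lev (F.ψ c) u (0, z) := fun z hz u => levz_slice hU hψ (hUs ⟨h0T, hz⟩) u
  have hpos0 : ∀ z ∈ (F.e c).target, ∀ u, u ≠ 0 → 0 < lev (F.ψ c) u (0, z) := fun z hz u hu =>
    lev_pos hU hψ (hUs ⟨h0T, hz⟩) (F.krf.pos c 0 h0T z hz) hu
  obtain ⟨C₂, hC₂, hev⟩ := Bd.levz_le_local (F.e c).open_target
    (f := fun x => nsq (x - z₀)) (g := fun x => F.ψ c (0, x))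
    ((Gap.contDiff_nsq'.comp (contDiff_id.sub contDiff_const)).contDiffOn) hψ0 hz₀t
    (fun z hz u hu => by rw [hlev0 z hz]; exact hpos0 z hz u hu)
  have hev2 : ∀ᶠ z in 𝓝 z₀, z ∈ V₀ := hV₀.mem_nhds hz₀V
  obtain ⟨r, hr, hBc, hBsub⟩ := exists_ball (hev.and hev2)
  set B : Set (Cn n) := {z | nsq (z - z₀) ≤ r ^ 2} with hB
  have hBV : B ⊆ V₀ := fun z hz => (hBsub hz).2
  have hBS : ∀ z ∈ B, z ∈ (F.e c).target := fun z hz => hV₀t (hBV hz)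
  have hBq : ∀ z ∈ B, ∀ u, nsq u ≤ C₂ * lev (F.ψ c) u (0, z) := fun z hz u => by
    have h2 := (hBsub hz).1 u
    rw [Gap.levz_nsq, hlev0 z (hBS z hz)] at h2
    exact h2
  have hz₀B : z₀ ∈ B := by
    simp only [hB, mem_ofPred_eq, sub_self, Gap.nsq_zero]
    positivity
  have hd₀ : 0 < 1 - s₀ / T := by
    rw [sub_pos, div_lt_one hT]
    exact hs₀.2
  -- the constants
  set σ : ℝ := (1 - s₀ / T) / (2 * (C₂ + 1)) with hσ
  have hσ0 : 0 < σ := by positivity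
  have hσC : σ * C₂ ≤ 1 / 2 * (1 - s₀ / T) := by
    rw [hσ, div_mul_eq_mul_div, div_le_iff₀ (by positivity)]
    nlinarith
  set ε : ℝ := min δ (σ * r ^ 2) / 4 with hε
  have hm0 : 0 < min δ (σ * r ^ 2) := lt_min hδ (by positivity)
  have hε0 : 0 < ε := by positivity
  have hε1 : 2 * ε < δ := by
    have := min_le_left δ (σ * r ^ 2)
    linarith
  have hε2 : 2 * ε < σ * r ^ 2 := by
    have := min_le_right δ (σ * r ^ 2)
    linarith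
  obtain ⟨u', V', hV', hsubV, hV'V, hu', hpsh, hclose⟩ := pshC_mollify hV₀ hpshV hBc hBV hε0
  have hV't : V' ⊆ (F.e c).target := hV'V.trans hV₀t
  -- the perturbed function
  set V : ℝ × Cn n → ℝ := fun q => F.phi c q + t₀ / T * F.Θ c q.2 - u' q.2 +
    barr n T C₁ t₀ q.1 + σ * nsq (q.2 - z₀) with hV
  have hWs : ∀ s ∈ Icc t₀ s₀, ∀ z ∈ B,
      F.Phi s ((F.e c).symm z) = F.phi c (s, z) := fun s hs z hz => by
    rw [F.Phi_eq (hsub s hs) ((F.e c).map_target (hBS z hz)),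
      (F.e c).right_inv (hBS z hz)]
  have hlow : ∀ s ∈ Icc t₀ s₀, ∀ z ∈ B, w₀ + σ * nsq (z - z₀) - ε ≤ V (s, z) := by
    intro s hs z hz
    have h2 := hmin s hs ((F.e c).symm z)
    rw [hWs s hs z hz] at h2
    have h3 := (abs_le.1 (hclose z (hsubV hz))).2
    simp only [hV]
    change w₀ ≤ F.phi c (s, z) - R ((F.e c).symm z) + barr n T C₁ t₀ s at h2
    linarith
  have hlow0 : ∀ z ∈ B, w₀ + δ - ε ≤ V (t₀, z) := by
    intro z hz
    have h2 := hmin0 ((F.e c).symm z)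
    rw [hWs t₀ ⟨le_rfl, hs₀.1.le⟩ z hz] at h2
    have h3 := (abs_le.1 (hclose z (hsubV hz))).2
    have h4 : 0 ≤ σ * nsq (z - z₀) := mul_nonneg hσ0.le (Gap.nsq_nonneg _)
    simp only [hV, barr_self]
    change w₀ + δ ≤ F.phi c (t₀, z) - R ((F.e c).symm z) at h2
    linarith
  have hup : V (s₀, z₀) ≤ w₀ + ε := by
    have h2 := (abs_le.1 (hclose z₀ (hsubV hz₀B))).1
    have h3 := hWs s₀ hs₀I z₀ hz₀B
    rw [hsz₀] at h3 h2
    simp only [hV, sub_self, Gap.nsq_zero, mul_zero, add_zero]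
    rw [hw₀, h3]
    linarith
  -- continuity
  obtain ⟨Uφ, hUφ, hUφs, hφ⟩ := F.phi_isFun.smooth c
  have hVc : ContinuousOn V (Icc t₀ s₀ ×ˢ B) := by
    have e1 : ContinuousOn (fun q : ℝ × Cn n => F.phi c q) (Icc t₀ s₀ ×ˢ B) :=
      hφ.continuousOn.mono fun q hq => hUφs ⟨hsub _ hq.1, hBS _ hq.2⟩
    have e2 : ContinuousOn (fun q : ℝ × Cn n => F.Θ c q.2) (Icc t₀ s₀ ×ˢ B) :=
      (F.smooth c).continuousOn.comp continuousOn_snd fun q hq => hBS _ hq.2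
    have e3 : ContinuousOn (fun q : ℝ × Cn n => u' q.2) (Icc t₀ s₀ ×ˢ B) :=
      hu'.continuousOn.comp continuousOn_snd fun q hq => hsubV hq.2
    have e4 : ContinuousOn (fun q : ℝ × Cn n => barr n T C₁ t₀ q.1) (Icc t₀ s₀ ×ˢ B) := by
      have e5 : ContinuousOn (barr n T C₁ t₀) (Icc t₀ s₀) := fun s hs =>
        (hasDerivAt_barr n hT (hsub s hs).2).continuousAt.continuousWithinAt
      exact e5.comp continuousOn_fst fun q hq => hq.1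
    have e6 : Continuous fun q : ℝ × Cn n => σ * nsq (q.2 - z₀) :=
      continuous_const.mul (Gap.contDiff_nsq'.continuous.comp (by fun_prop))
    exact (((e1.add (continuousOn_const.mul e2)).sub e3).add e4).add e6.continuousOn
  obtain ⟨⟨s₁, z₁⟩, ⟨hs₁, hz₁⟩, hminV⟩ := (isCompact_Icc.prod hBc).exists_isMinOn
    ⟨(s₀, z₀), hs₀I, hz₀B⟩ hVc
  have hs₁I : s₁ ∈ Icc t₀ s₀ := hs₁
  have hz₁B : z₁ ∈ B := hz₁
  have hminV' : ∀ s ∈ Icc t₀ s₀, ∀ z ∈ B, V (s₁, z₁) ≤ V (s, z) := fun s hs z hz =>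
    hminV (show (s, z) ∈ Icc t₀ s₀ ×ˢ B from ⟨hs, hz⟩)
  have hle := (hminV' s₀ hs₀I z₀ hz₀B).trans hup
  have hs₁t : t₀ < s₁ := by
    refine lt_of_le_of_ne hs₁I.1 fun h => ?_
    have h2 := hlow0 z₁ hz₁B
    rw [h] at h2
    linarith
  have hz₁r : nsq (z₁ - z₀) < r ^ 2 := by
    refine lt_of_le_of_ne hz₁B fun h => ?_
    have h2 := hlow s₁ hs₁I z₁ hz₁B
    rw [h] at h2
    linarith
  have hs₁T := hsub s₁ hs₁I
  have hz₁S := hBS z₁ hz₁B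
  have hz₁V : z₁ ∈ V' := hsubV hz₁B
  have hd₁ : 1 - s₀ / T ≤ 1 - s₁ / T := by
    have := div_le_div_of_nonneg_right hs₁I.2 hT.le
    linarith
  -- the Levi form
  have hlev : ∀ u, 1 / 2 * (1 - s₁ / T) * lev (F.ψ c) u (0, z₁) ≤ lev (F.ψ c) u (s₁, z₁) := by
    intro u
    have hSφ : ContDiffOn ℝ ∞ (fun z => F.phi c (s₁, z)) V' :=
      hφ.comp (contDiff_const.prodMk contDiff_id).contDiffOn fun z hz => hUφs ⟨hs₁T, hV't hz⟩
    have hSn : ContDiffOn ℝ ∞ (fun z => nsq (z - z₀)) V' :=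
      (Gap.contDiff_nsq'.comp (contDiff_id.sub contDiff_const)).contDiffOn
    have hSK : ContDiffOn ℝ ∞ (F.Θ c) V' := (F.smooth c).mono hV't
    have hall : ContDiffOn ℝ ∞ (fun z => F.phi c (s₁, z) + t₀ / T * F.Θ c z - u' z +
        barr n T C₁ t₀ s₁ + σ * nsq (z - z₀)) V' :=
      (((hSφ.add (contDiffOn_const.mul hSK)).sub hu').add contDiffOn_const).add
        (contDiffOn_const.mul hSn)
    have h2 := levz_nonneg_of_min hV' hall hz₁V (by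
      have h3 : ∀ᶠ z in 𝓝 z₁, nsq (z - z₀) < r ^ 2 := by
        have : ContinuousAt (fun z : Cn n => nsq (z - z₀)) z₁ :=
          (Gap.contDiff_nsq'.continuous.comp (by fun_prop)).continuousAt
        exact this.eventually_lt_const hz₁r
      filter_upwards [h3] with z hz
      exact hminV' s₁ hs₁I z hz.le) u
    have hn : V' ∈ 𝓝 z₁ := hV'.mem_nhds hz₁V
    have a1 : ContDiffAt ℝ 2 (fun z => F.phi c (s₁, z)) z₁ :=
      (hSφ.contDiffAt hn).of_le two_le_infty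
    have a2 : ContDiffAt ℝ 2 (fun z => F.Θ c z) z₁ := (hSK.contDiffAt hn).of_le two_le_infty
    have a3 : ContDiffAt ℝ 2 (fun z => u' z) z₁ := (hu'.contDiffAt hn).of_le two_le_infty
    have a5 : ContDiffAt ℝ 2 (fun z => nsq (z - z₀)) z₁ := (hSn.contDiffAt hn).of_le two_le_infty
    have a2' : ContDiffAt ℝ 2 (fun z => t₀ / T * F.Θ c z) z₁ := contDiffAt_const.mul a2
    have a5' : ContDiffAt ℝ 2 (fun z => σ * nsq (z - z₀)) z₁ := contDiffAt_const.mul a5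
    rw [Bd.levz_add (((a1.add a2').sub a3).add contDiffAt_const) a5',
      Bd.levz_add ((a1.add a2').sub a3) contDiffAt_const, Bd.levz_sub (a1.add a2') a3,
      Bd.levz_add a1 a2', Bd.levz_const_mul _ a2, Bd.levz_const_mul _ a5, Bd.levz_const,
      Gap.levz_nsq, levz_slice hUφ hφ (hUφs ⟨hs₁T, hz₁S⟩), F.lev_phi hs₁T hz₁S] at h2
    have e2 : 0 ≤ levz (fun z => u' z) u z₁ := hpsh _ hz₁V _
    have e3 : 0 ≤ levz (F.Θ c) u z₁ := F.psh c z₁ hz₁S u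
    have e3' : levz (fun z => F.Θ c z) u z₁ = levz (F.Θ c) u z₁ := rfl
    have e4 : t₀ / T * levz (F.Θ c) u z₁ ≤ s₁ / T * levz (F.Θ c) u z₁ :=
      mul_le_mul_of_nonneg_right (div_le_div_of_nonneg_right hs₁t.le hT.le) e3
    have e5 : σ * nsq u ≤ 1 / 2 * (1 - s₁ / T) * lev (F.ψ c) u (0, z₁) := by
      have e6 : 0 ≤ lev (F.ψ c) u (0, z₁) := by
        by_cases hu : u = 0
        · rw [hu, ← hlev0 z₁ hz₁S]
          have := Bd.levz_smul (F.e c).open_target hψ0 hz₁S 0 0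
          simp only [smul_zero] at this
          rw [this]
          norm_num
        · exact (hpos0 z₁ hz₁S u hu).le
      calc σ * nsq u ≤ σ * (C₂ * lev (F.ψ c) u (0, z₁)) :=
            mul_le_mul_of_nonneg_left (hBq z₁ hz₁B u) hσ0.le
        _ = σ * C₂ * lev (F.ψ c) u (0, z₁) := by ring
        _ ≤ 1 / 2 * (1 - s₁ / T) * lev (F.ψ c) u (0, z₁) :=
            mul_le_mul_of_nonneg_right (by linarith) e6
    linarith
  have h11 := h1 c s₁ hs₁T z₁ hz₁S hlev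
  have hspos : s₁ ∈ Ioo 0 T := ⟨ht₀.1.trans_lt hs₁t, hs₁T.2⟩
  have h12 : HasDerivAt (fun r => F.phi c (r, z₁)) (F.dphi c (s₁, z₁)) s₁ := by
    rw [← F.dt_phi hspos hz₁S]
    exact Bd.hasDerivAt_time
      ((F.phi_isFun.contDiffAt hs₁T hz₁S).differentiableAt (by simp))
  have h13 := nonpos_of_left_min (h12.add (hasDerivAt_barr n (C := C₁) (t₀ := t₀) hT hs₁T.2))
    hs₁t (by
      intro r hr
      have hrI : r ∈ Icc t₀ s₀ := ⟨hr.1, hr.2.trans hs₁I.2⟩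
      have h14 := hminV' r hrI z₁ hz₁B
      simp only [hV] at h14
      simp only [Pi.add_apply]
      linarith)
  linarith

/-- **Drop estimate** for an abstract comparison function -/
theorem Flow.drop_of_psh [CompactSpace M] [T2Space M] :
    ∃ C : ℝ, 0 ≤ C ∧ ∀ t₀ ∈ Ico 0 T, ∀ R : M → ℝ, Continuous R →
    (∀ c, ∀ z ∈ (F.e c).target, ∃ V : Set (Cn n), IsOpen V ∧ z ∈ V ∧ V ⊆ (F.e c).target ∧
      PshC (fun w => R ((F.e c).symm w) + t₀ / T * F.Θ c w) V) →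
    ∀ B : ℝ, (∀ p, R p ≤ F.Phi t₀ p + B) → ∀ t ∈ Ico t₀ T, ∀ p,
      R p ≤ F.Phi t p + B + C * √(T - t₀) := by
  rcases le_or_gt T 0 with hT | hT
  · exact ⟨0, le_rfl, fun t₀ ht₀ => absurd (ht₀.1.trans_lt ht₀.2) (not_lt.2 hT)⟩
  obtain ⟨C₁, hC₁, h1⟩ := KRFG.Flow.dphi_ge_half F
  refine ⟨(C₁ + 1 + n) * √T + 2 * n * √T, by positivity, ?_⟩
  intro t₀ ht₀ R hRc hR B hB t ht p
  have hsub : ∀ s ∈ Icc t₀ t, s ∈ Ico 0 T := fun s hs => ⟨ht₀.1.trans hs.1, hs.2.trans_lt ht.2⟩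
  set V : ℝ × M → ℝ := fun q => F.Phi q.1 q.2 - R q.2 + barr n T C₁ t₀ q.1 with hV
  have hVc : ContinuousOn V (Icc t₀ t ×ˢ univ) := by
    have e1 : ContinuousOn (fun q : ℝ × M => F.Phi q.1 q.2) (Icc t₀ t ×ˢ univ) :=
      F.Phi_continuousOn.mono fun q hq => ⟨hsub _ hq.1, mem_univ _⟩
    have e4 : ContinuousOn (fun q : ℝ × M => barr n T C₁ t₀ q.1) (Icc t₀ t ×ˢ univ) := by
      have e5 : ContinuousOn (barr n T C₁ t₀) (Icc t₀ t) := fun s hs =>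
        (hasDerivAt_barr n hT (hsub s hs).2).continuousAt.continuousWithinAt
      exact e5.comp continuousOn_fst fun q hq => hq.1
    exact (e1.sub (hRc.comp continuous_snd).continuousOn).add e4
  have key : ∀ I : Set ℝ, IsCompact I → I ⊆ Icc t₀ t → t₀ ∈ I → ∃ q ∈ I ×ˢ (univ : Set M),
      ∀ q' ∈ I ×ˢ (univ : Set M), V q ≤ V q' := by
    intro I hI hIs hI0
    obtain ⟨q, hq, hq'⟩ := (hI.prod isCompact_univ).exists_isMinOn ⟨(t₀, p), hI0, mem_univ _⟩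
      (hVc.mono (prod_mono hIs Subset.rfl))
    exact ⟨q, hq, fun q' h => hq' h⟩
  obtain ⟨⟨s₀, x₀⟩, ⟨hs₀, -⟩, hm⟩ := key (Icc t₀ t) isCompact_Icc Subset.rfl ⟨le_rfl, ht.1⟩
  obtain ⟨⟨s₂, x₂⟩, ⟨hs₂, -⟩, hm₀⟩ := key {t₀} isCompact_singleton
    (singleton_subset_iff.2 ⟨le_rfl, ht.1⟩) rfl
  have hs₂' : s₂ = t₀ := hs₂
  subst hs₂'
  have hs₀I : s₀ ∈ Icc s₂ t := hs₀
  have hB₂ : -B ≤ V (s₂, x₂) := by
    simp only [hV]
    rw [barr_self, add_zero]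
    have := hB x₂
    linarith
  have h4 := barr_le n (t₀ := s₂) (t := t) hT hC₁ ht₀.1 ht.1 ht.2
  have hmain : -B ≤ V (s₀, x₀) := by
    by_contra hlt
    rw [not_le] at hlt
    have hδ : 0 < V (s₂, x₂) - V (s₀, x₀) := by linarith
    have hs : s₂ < s₀ := by
      refine lt_of_le_of_ne hs₀I.1 fun h => ?_
      subst h
      have := hm₀ (s₂, x₀) ⟨rfl, mem_univ _⟩
      linarith
    obtain ⟨c, hc⟩ := F.atlas.cover x₀
    refine drop_localM F h1 ht₀ ⟨hs, hs₀I.2.trans_lt ht.2⟩ hδ hc (R := R)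
      (hR c _ ((F.e c).map_source hc)) ?_ ?_
    · intro s hsI x
      exact hm (s, x) ⟨⟨hsI.1, hsI.2.trans hs₀I.2⟩, mem_univ _⟩
    · intro x
      have h4 := hm₀ (s₂, x) ⟨rfl, mem_univ _⟩
      simp only [hV, barr_self, add_zero] at h4 ⊢
      linarith
  have h5 := hm (t, p) ⟨⟨ht.1, le_rfl⟩, mem_univ _⟩
  simp only [hV] at h5 hmain
  linarith

end Flow

end Pool.Agent.KRFH
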