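import Pool.Agent.Work.MP_a2bf38_gt.L.Defs

/-!
# The setup of a Kähler-Ricci flow on a fibration over an orbifold
-/

open scoped ContDiff ENNReal ComplexOrder Topology
open Set MeasureTheory Filter Pool.Agent.ToricKRF Pool.Agent.ToricKRF.G Pool.Agent.KRFS
  Pool.Agent.KRFF Pool.Agent.KRFG

namespace Pool.Agent.KRFH

/-- A Kähler-Ricci flow on a fibration over an orbifold, with semistable models over a
modification. -/
structure Mod (n m : ℕ) (M Y X W : Type) [TopologicalSpace M] [TopologicalSpace Y]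
    [TopologicalSpace X] [TopologicalSpace W] (κ P Q ι : Type) (T : ℝ) extends Flow n M κ T where
  q : P → Cn m → Y
  f : M → Y
  h : Y → ℝ
  b : Q → OpenPartialHomeomorph X (Cn m)
  σ : X → Y
  a : ι → OpenPartialHomeomorph W (Cn n)
  al : ι → κ
  lab : W → Q
  π : W → M
  g : W → X
  τ : W → Cn m
  N : Q → Fin m → ℕ
  pc : ι → Q
  s : ι → Fin m → ℝ
  row : ι → Fin n → Option (Fin m)
  K : P → Cn m → ℝ
  k₀ : Y → ℝ
  orb : IsOrbifold q
  hol : IsHolMap e q h f
  modif : IsModif q h b σ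
  model : IsModel e f h b σ a al lab π g τ N pc s row
  lim : IsLimit e q h f T ψ Ω K k₀

section

variable {n m : ℕ} {M Y X W : Type} [TopologicalSpace M] [TopologicalSpace Y]
  [TopologicalSpace X] [TopologicalSpace W] {κ P Q ι : Type} {T : ℝ}
  (F : Mod n m M Y X W κ P Q ι T)

/-- the maximum of `φ(t)` on the fibre over `y` -/
noncomputable def Mod.Mx (t : ℝ) (y : Y) : ℝ := sSup (F.Phi t '' (F.f ⁻¹' {y}))

/-- the coordinates in `X` of the point `x` of the chart `c` of `W` -/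
noncomputable def Mod.yc (c : ι) (x : Cn n) : Cn m := F.b (F.pc c) (F.g ((F.a c).symm x))

/-- `φ - max_{F_y} φ ≤ 0` in the chart `c` of `W` -/
noncomputable def Mod.gc (t : ℝ) (c : ι) (x : Cn n) : ℝ :=
  F.Phi t (F.π ((F.a c).symm x)) - F.Mx t (F.f (F.π ((F.a c).symm x)))

/-- the coordinates in `M` of the point `x` of the chart `c` of `W` -/
noncomputable def Mod.piC (c : ι) (x : Cn n) : Cn n := F.e (F.al c) (F.π ((F.a c).symm x))

open Classical in
/-- the function `H` on `X` -/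
noncomputable def Mod.HX (C₁ A ε : ℝ) (x : X) : ℝ := ⨆ a : Q,
  if x ∈ (F.b a).source ∧ nsq (F.b a x) < 16 then max (hB C₁ A ε (F.b a x)) (-A - 1)
    else -A - 1

end

/-! ### plurisubharmonic functions -/

/-- the asymptotic sub-mean value property at `z` in the direction `v` -/
def Asub {m : ℕ} (u : Cn m → ℝ) (z v : Cn m) : Prop :=
  ∀ ε > 0, ∀ᶠ r in 𝓝[>] (0 : ℝ), u z ≤ cavg (fun ζ => u (line z v ζ)) r + ε * r ^ 2

/-- the radial kernels -/
structure IsKernel {m : ℕ} (χ : Cn m → ℝ) : Prop where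
  smooth : ContDiff ℝ ∞ χ
  nonneg : ∀ x, 0 ≤ χ x
  supp : ∀ x, χ x ≠ 0 → nsq x ≤ 1
  radial : ∀ x x', nsq x = nsq x' → χ x = χ x'
  integral : ∫ x, χ x = 1

/-- `∫ χ(w) u(x - ρ w) dw` -/
noncomputable def conv {m : ℕ} (χ : Cn m → ℝ) (ρ : ℝ) (u : Cn m → ℝ) (x : Cn m) : ℝ :=
  ∫ w, χ w * u (x - ρ • w)

section

variable {n m : ℕ} {M Y X W : Type} [TopologicalSpace M] [TopologicalSpace Y]
  [TopologicalSpace X] [TopologicalSpace W] {κ P Q ι : Type} {T : ℝ}
  (F : Mod n m M Y X W κ P Q ι T)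

/-- the function on the base before the regularization, in the chart `j` -/
noncomputable def Mod.uj (t : ℝ) (u : Y → ℝ) (j : P) (y : Cn m) : ℝ :=
  u (F.q j y) + t / T * (F.K j y - F.k₀ (F.q j y))

/-- the result of `L/Base.lean` -/
structure Mod.IsBase (C t : ℝ) (u : Y → ℝ) : Prop where
  cont : Continuous u
  bound : ∀ y, |u y| ≤ C
  le : ∀ y, u y ≤ F.Mx t y + C * (T - t)
  ge : ∀ y, F.h y ≠ 0 → F.Mx t y - C * (T - t) * (1 + |Real.log (F.h y)|) ≤ u y
  psh : ∀ j, PshC (F.uj t u j) {y : Cn m | nsq y < 49}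

/-- the regularization in the chart `j` -/
noncomputable def Mod.Rj (χ : Cn m → ℝ) (A η ρ t : ℝ) (u : Y → ℝ) (j : P) (y : Cn m) : ℝ :=
  (1 - A * η) * (conv χ ρ (F.uj t u j) y - t / T * F.K j y) - η * nsq y +
    t / T * F.k₀ (F.q j y)

/-- the regularization -/
noncomputable def Mod.R (χ : Cn m → ℝ) (A η ρ t : ℝ) (u : Y → ℝ) (y : Y) : ℝ :=
  sSup {r | ∃ j y', nsq y' < 16 ∧ F.q j y' = y ∧ r = F.Rj χ A η ρ t u j y'}

end

end Pool.Agent.KRFH
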