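import Pool.Agent.Work.MP_a2bf38_gt.L.Setup

/-!
# The tasks of Part V (statements only; nothing may import this file)
-/

open scoped ContDiff ENNReal ComplexOrder Topology
open Set MeasureTheory Filter Pool.Agent.ToricKRF Pool.Agent.ToricKRF.G Pool.Agent.KRFS
  Pool.Agent.KRFF Pool.Agent.KRFG

namespace Pool.Agent.KRFH

/-! ## A. `L/Asub.lean`: one variable and continuous psh functions (no manifold) -/

/-- the argument of `K/Visc.lean` with the asymptotic sub-mean value property -/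
theorem visc_asub {u : ℂ → ℝ} (hu : ContinuousOn u (Metric.closedBall 0 1)) {S : Set ℂ}
    (hS : S.Finite) (h : ∀ z ∈ Metric.ball (0 : ℂ) 1, z ∉ S → ∀ ε > 0,
      ∀ᶠ r in 𝓝[>] (0 : ℝ), u z ≤ cavg (fun ζ => u (z + ζ)) r + ε * r ^ 2) :
    u 0 ≤ cavg u 1 := sorry

theorem asub_of_touch {m : ℕ} {u : Cn m → ℝ} {V : Set (Cn m)} (hV : IsOpen V)
    (hu : ContinuousOn u V) {z v : Cn m} (hz : z ∈ V) {q : ℂ → ℝ} (hq : ContDiffAt ℝ 2 q 0)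
    (h0 : q 0 = u z) (hle : ∀ᶠ ζ in 𝓝 (0 : ℂ), q ζ ≤ u (line z v ζ)) (hl : 0 ≤ lapC q 0) :
    Asub u z v := sorry

theorem asub_of_smooth {m : ℕ} {u G : Cn m → ℝ} {S : Set (Cn m)} (hS : IsOpen S)
    (hu : ContinuousOn u S) (hG : ContDiffOn ℝ ∞ G S) {z : Cn m} (hz : z ∈ S)
    (h0 : G z = u z) (hle : ∀ w ∈ S, G w ≤ u w) {v : Cn m} (hl : 0 ≤ levz G v z) :
    Asub u z v := sorry

theorem asub_of_pshC {m : ℕ} {u : Cn m → ℝ} {V : Set (Cn m)} (hV : IsOpen V) (hu : PshC u V)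
    {z : Cn m} (hz : z ∈ V) (v : Cn m) : Asub u z v := sorry

/-- `L/AsubN.lean`: from `visc_asub` -/
theorem pshC_of_asub {m : ℕ} {u : Cn m → ℝ} {V : Set (Cn m)} (hV : IsOpen V)
    (hu : ContinuousOn u V)
    (h : ∀ z₀ ∈ V, ∃ (U : Set (Cn m)) (s : Cn m → ℂ), IsOpen U ∧ z₀ ∈ U ∧ NF.HolC s U ∧
      U ⊆ closure {w | w ∈ U ∧ s w ≠ 0} ∧
      ∀ z ∈ U, z ∈ V → s z ≠ 0 → ∀ v, Asub u z v) : PshC u V := sorry

/-! ## B. `L/Three.lean`: the three circles theorem (no manifold) -/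

theorem three_balls {m : ℕ} {u : Cn m → ℝ} {V : Set (Cn m)} (hV : IsOpen V) (hu : PshC u V)
    {x : Cn m} {r₁ r₂ r₃ A₁ A₃ : ℝ} (h0 : 0 < r₁) (h12 : r₁ < r₂) (h23 : r₂ < r₃)
    (hsub : {y | nsq (y - x) ≤ r₃ ^ 2} ⊆ V) (h1 : ∀ y, nsq (y - x) ≤ r₁ ^ 2 → u y ≤ A₁)
    (h3 : ∀ y, nsq (y - x) ≤ r₃ ^ 2 → u y ≤ A₃) : ∀ y, nsq (y - x) ≤ r₂ ^ 2 →
      u y * Real.log (r₃ / r₁) ≤ A₁ * Real.log (r₃ / r₂) + A₃ * Real.log (r₂ / r₁) := sorry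

/-! ## C. `L/Conv.lean`: radial convolutions (no manifold) -/

theorem exists_kernel (m : ℕ) : ∃ χ : Cn m → ℝ, IsKernel χ := sorry

section conv

variable {m : ℕ} {χ : Cn m → ℝ} {u : Cn m → ℝ} {V A : Set (Cn m)} {ρ : ℝ}

theorem conv_smooth (hχ : IsKernel χ) (hV : IsOpen V) (hu : ContinuousOn u V) (hρ : 0 < ρ)
    (hA : IsOpen A) (hAV : ∀ x ∈ A, ∀ y, nsq (y - x) ≤ ρ ^ 2 → y ∈ V) :
    ContDiffOn ℝ ∞ (conv χ ρ u) A := sorry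

theorem conv_lev (hχ : IsKernel χ) (hV : IsOpen V) (hu : PshC u V) (hρ : 0 < ρ)
    (hA : IsOpen A) (hAV : ∀ x ∈ A, ∀ y, nsq (y - x) ≤ ρ ^ 2 → y ∈ V) :
    ∀ x ∈ A, ∀ v, 0 ≤ levz (conv χ ρ u) v x := sorry

theorem le_conv (hχ : IsKernel χ) (hV : IsOpen V) (hu : PshC u V) (hρ : 0 < ρ) {x : Cn m}
    (hx : ∀ y, nsq (y - x) ≤ ρ ^ 2 → y ∈ V) : u x ≤ conv χ ρ u x := sorry

theorem conv_le (hχ : IsKernel χ) (hV : IsOpen V) (hu : ContinuousOn u V) (hρ : 0 < ρ)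
    {x : Cn m} (hx : ∀ y, nsq (y - x) ≤ ρ ^ 2 → y ∈ V) {B : ℝ}
    (hB : ∀ y, nsq (y - x) ≤ ρ ^ 2 → u y ≤ B) : conv χ ρ u x ≤ B := sorry

theorem conv_ge (hχ : IsKernel χ) (hV : IsOpen V) (hu : ContinuousOn u V) (hρ : 0 < ρ)
    {x : Cn m} (hx : ∀ y, nsq (y - x) ≤ ρ ^ 2 → y ∈ V) {B : ℝ}
    (hB : ∀ y, nsq (y - x) ≤ ρ ^ 2 → B ≤ u y) : B ≤ conv χ ρ u x := sorry

theorem conv_deck (hχ : IsKernel χ) (hρ : 0 < ρ) (A : Cn m →ₗ[ℝ] Cn m)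
    (hA : ∀ v, nsq (A v) = nsq v) {x : Cn m} (hu : ∀ y, nsq (y - x) ≤ ρ ^ 2 → u (A y) = u y) :
    conv χ ρ u (A x) = conv χ ρ u x := sorry

end conv

/-- `L/ConvDiff.lean`: `∫ (u_ρ - u) ≤ C ρ` -/
theorem conv_diff {m : ℕ} {χ : Cn m → ℝ} (hχ : IsKernel χ) : ∃ C : ℝ, 0 ≤ C ∧
    ∀ (u : Cn m → ℝ) (B ρ s : ℝ), PshC u {y : Cn m | nsq y < 49} →
      (∀ y, nsq y < 49 → |u y| ≤ B) → 0 < ρ → ρ ≤ 1 → 0 < s →
      volume {x : Cn m | nsq x ≤ 25 ∧ u x + s < conv χ ρ u x} ≤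
        ENNReal.ofReal (C * B * ρ / s) := sorry

/-- `L/Osc.lean`: from `three_balls`, and the mean value inequality over balls -/
theorem conv_osc {m : ℕ} {χ : Cn m → ℝ} (hχ : IsKernel χ) {k : ℝ} (hk : 1 ≤ k) : ∃ C ρ₀ : ℝ,
    0 ≤ C ∧ 0 < ρ₀ ∧ ρ₀ < 1 ∧ ∀ (u : Cn m → ℝ) (B ρ : ℝ), PshC u {y : Cn m | nsq y < 49} →
      (∀ y, nsq y < 49 → |u y| ≤ B) → 0 < ρ → ρ < ρ₀ → ∀ x, nsq x ≤ 25 →
        ∀ y, nsq (y - x) ≤ (k * ρ) ^ 2 → u y ≤ conv χ ρ u x + C * B / Real.log (1 / ρ) := sorry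

/-! ## D. `L/FlowSide.lean`: the flow and an abstract comparison function on `M` -/

section Flow

variable {n : ℕ} {M : Type} [TopologicalSpace M] [CompactSpace M] [T2Space M] {κ : Type} {T : ℝ}
  (F : Flow n M κ T)

/-- `L/ContactM.lean` (K/ContactA.lean, K/ContactOf.lean) -/
theorem Flow.contact_of_psh (U : κ → Cn n → Set (Cn n))
    (hU : ∀ c, ∀ z ∈ (F.e c).target, IsOpen (U c z) ∧ z ∈ U c z ∧ U c z ⊆ (F.e c).target) :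
    ∃ (c₀ C : ℝ) (A : κ → Set (Cn n)), 0 < c₀ ∧ 0 ≤ C ∧
      {c | (A c).Nonempty}.Finite ∧ (∀ c, IsCompact (A c) ∧ A c ⊆ (F.e c).target) ∧
      ∀ t ∈ Ico 0 T, ∀ R : M → ℝ, Continuous R →
        (∀ c, ∀ z ∈ (F.e c).target,
          PshC (fun w => R ((F.e c).symm w) + t / T * F.Θ c w) (U c z)) →
        ∀ H : ℝ, (∃ p, F.Phi t p ≤ R p - H) →
          ∃ c', ∃ S ⊆ A c', MeasurableSet S ∧
            ENNReal.ofReal (c₀ * (T - t) ^ (2 * n)) ≤ volume S ∧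
            ∀ z ∈ S, F.Phi t ((F.e c').symm z) ≤ R ((F.e c').symm z) - H + C * (T - t) := sorry

/-- `L/DropM.lean` (K/DropLocal.lean, K/DropOf.lean) -/
theorem Flow.drop_of_psh : ∃ C : ℝ, 0 ≤ C ∧ ∀ t₀ ∈ Ico 0 T, ∀ R : M → ℝ, Continuous R →
    (∀ c, ∀ z ∈ (F.e c).target, ∃ V : Set (Cn n), IsOpen V ∧ z ∈ V ∧ V ⊆ (F.e c).target ∧
      PshC (fun w => R ((F.e c).symm w) + t₀ / T * F.Θ c w) V) →
    ∀ B : ℝ, (∀ p, R p ≤ F.Phi t₀ p + B) → ∀ t ∈ Ico t₀ T, ∀ p,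
      R p ≤ F.Phi t p + B + C * √(T - t₀) := sorry

/-- `L/BallM.lean`: from the mean value inequality for `φ + C |z|^2` -/
theorem Flow.ball_good {c : κ} {z₀ : Cn n} (hz₀ : z₀ ∈ (F.e c).target) : ∃ C r₀ δ : ℝ, 0 < C ∧
    0 < r₀ ∧ 0 < δ ∧ {z | nsq (z - z₀) ≤ (2 * r₀) ^ 2} ⊆ (F.e c).target ∧
    ∀ t ∈ Ico 0 T, T - t < δ → ∀ z, nsq (z - z₀) ≤ r₀ ^ 2 → ∀ r ∈ Ioc (0 : ℝ) r₀,
      C * r ^ 2 ≤ √(T - t) → ENNReal.ofReal (C⁻¹ * √(T - t) * r ^ (2 * n)) ≤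
        volume {w | nsq (w - z) ≤ r ^ 2 ∧
          F.Phi t ((F.e c).symm z) - √(T - t) ≤ F.Phi t ((F.e c).symm w)} := sorry

end Flow

/-! ## E. the modification and the maximum over the fibres -/

section Mod

variable {n m : ℕ} {M Y X W : Type} [TopologicalSpace M] [CompactSpace M] [T2Space M]
  [TopologicalSpace Y] [T2Space Y] [TopologicalSpace X] [CompactSpace X] [T2Space X]
  [TopologicalSpace W] [T2Space W] {κ P Q ι : Type} [Finite P] [Finite Q] [Fintype ι] {T : ℝ}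
  (F : Mod n m M Y X W κ P Q ι T)

/-- `L/Sup.lean` (K/Sup.lean) -/
theorem Mod.Mx_spec {t : ℝ} (ht : t ∈ Ico 0 T) (y : Y) :
    (∃ p, F.f p = y ∧ F.Phi t p = F.Mx t y) ∧ ∀ p, F.f p = y → F.Phi t p ≤ F.Mx t y := sorry

theorem Mod.exists_lift (p : M) : ∃ (c : ι) (x : Cn n), x ∈ cpd (k := n) 1 ∧
    F.π ((F.a c).symm x) = p ∧ nsq (F.yc c x) ≤ 1 := sorry

theorem Mod.sigma_surj : Function.Surjective F.σ := sorry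

/-- the inverse of `σ` is continuous where `h ≠ 0` -/
theorem Mod.sigma_nhds {x : X} (hx : F.h (F.σ x) ≠ 0) : 𝓝 x = comap F.σ (𝓝 (F.σ x)) := sorry

theorem Mod.Mx_continuousAt {t : ℝ} (ht : t ∈ Ico 0 T) {y : Y} (hy : F.h y ≠ 0) :
    ContinuousAt (F.Mx t) y := sorry

/-- `L/Lift.lean`: two lifts which agree at a point agree near this point -/
theorem Mod.lift_unique {d : ℕ} {j : P} {p : Cn d → Y} {L L' : Cn d → Cn m} {U : Set (Cn d)}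
    (hU : IsOpen U) (hL : IsLift F.q j p L U) (hL' : IsLift F.q j p L' U) {w : Cn d}
    (hw : w ∈ U) (hh : F.h (p w) ≠ 0) (he : L w = L' w) : L =ᶠ[𝓝 w] L' := sorry

/-- the form `Θ` on the maps which lift -/
theorem Mod.theta_comp {d : ℕ} {c : κ} {S : Set (Cn d)} (hS : IsOpen S) {G : Cn d → Cn n}
    (hG : HolOn G S) (hGt : ∀ w ∈ S, G w ∈ (F.e c).target) {w : Cn d} (hw : w ∈ S)
    (hh : F.h (F.f ((F.e c).symm (G w))) ≠ 0) {j : P} {L : Cn d → Cn m}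
    (hL : IsLift F.q j (fun w => F.f ((F.e c).symm (G w))) L S) (u : Cn d) :
    levz (fun w => F.Θ c (G w)) u w =
      levz (fun w => F.K j (L w) - F.k₀ (F.q j (L w))) u w := sorry

/-- bounds of the potentials -/
theorem Mod.K_bound : ∃ C : ℝ, 0 < C ∧ ∀ j, ∀ y : Cn m, nsq y ≤ 49 → |F.K j y| ≤ C ∧
    |F.k₀ (F.q j y)| ≤ C ∧ ∀ v, nsq v ≤ C * levz (F.K j) v y := sorry

theorem Mod.K_lip : ∃ C : ℝ, 0 ≤ C ∧ ∀ j, ∀ y y' : Cn m, nsq y ≤ 36 → nsq y' ≤ 36 →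
    |F.K j y - F.K j y'| ≤ C * √(nsq (y - y')) ∧
    |F.k₀ (F.q j y) - F.k₀ (F.q j y')| ≤ C * √(nsq (y - y')) := sorry

theorem Mod.h_bound : ∃ C : ℝ, 1 ≤ C ∧ ∀ y, F.h y ≤ C := sorry

theorem Mod.k₀_continuous : Continuous F.k₀ := sorry

/-- `L/Touch.lean` (K/TouchA.lean, K/Touch.lean): the maximum is touched from below -/
theorem Mod.touch : ∃ C ε : ℝ, 0 ≤ C ∧ 0 < ε ∧ ε ≤ 1 ∧ ∀ t ∈ Ico 0 T, ∀ a, ∀ z : Cn m,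
    nsq z < 25 → (∀ i, cc z i ≠ 0) → ∃ (S : Set (Cn m)) (G : Cn m → ℝ), IsOpen S ∧ z ∈ S ∧
      S ⊆ (F.b a).target ∧ ContDiffOn ℝ ∞ G S ∧ G z = F.Mx t (F.σ ((F.b a).symm z)) ∧
      (∀ w ∈ S, G w ≤ F.Mx t (F.σ ((F.b a).symm w))) ∧
      ∀ j (S' : Set (Cn m)) (L : Cn m → Cn m), IsOpen S' → z ∈ S' → nsq (L z) < 49 →
        IsLift F.q j (fun w => F.σ ((F.b a).symm w)) L S' → ∀ v,
        -(t / T * levz (fun w => F.K j (L w) - F.k₀ (F.q j (L w))) v z) - (1 - t / T) * (C *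
          ∑ i, (z.1 i ^ 2 + z.2 i ^ 2) ^ (ε - 1) * (v.1 i ^ 2 + v.2 i ^ 2)) ≤ levz G v z := sorry

/-- `L/HX.lean`: the function `H` on `X` -/
theorem Mod.HX_spec {C₁ A ε : ℝ} (hC₁ : 0 ≤ C₁) (hε : 0 < ε) (hε1 : ε ≤ 1)
    (hA : 2 * m * C₁ + 1 ≤ A) : Continuous (F.HX C₁ A ε) ∧ (∀ x, -A ≤ F.HX C₁ A ε x) ∧
    (∀ x, F.HX C₁ A ε x ≤ 16 * m * C₁) ∧
    ∀ x, ∃ a, x ∈ (F.b a).source ∧ nsq (F.b a x) < 9 ∧
      F.HX C₁ A ε x = hB C₁ A ε (F.b a x) ∧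
      ∀ x' ∈ (F.b a).source, nsq (F.b a x') < 9 → hB C₁ A ε (F.b a x') ≤ F.HX C₁ A ε x' := sorry

/-- `L/Base.lean`: from `touch`, `HX_spec`, `pshC_of_asub` -/
theorem Mod.base : ∃ C d₀ : ℝ, 0 ≤ C ∧ 0 < d₀ ∧ ∀ t ∈ Ico 0 T, T - t < d₀ →
    ∃ u : Y → ℝ, F.IsBase C t u := sorry

/-! ## F. the fibres (the modules of `K/`) -/

/-- `L/Fib.lean` (K/Fib.lean) -/
theorem Mod.fib_psh : ∃ C : ℝ, 0 ≤ C ∧ ∀ t ∈ Ico 0 T, ∀ c, ∀ q ∈ opd (k := n) 9, ∀ M₀ : ℝ,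
    (∀ i, prow (F.row c) i q ≠ 0) → nsq (F.yc c q) ≤ 25 →
    ∀ piv : Fin m → Fin n, (∀ i, F.row c (piv i) = some i) → ∀ w,
    Em (F.row c) piv q w ∈ opd 9 → ∀ u,
    0 ≤ levz (fun w => F.Phi t (F.π ((F.a c).symm (Em (F.row c) piv q w))) - M₀ +
      C * (1 - t / T) * (nsq (Em (F.row c) piv q w) - 81 * n)) u w := sorry

theorem Mod.smooth_W {t : ℝ} (ht : t ∈ Ico 0 T) (c : ι) :
    ContDiffOn ℝ ∞ (fun x => F.Phi t (F.π ((F.a c).symm x))) (opd 10) := sorry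

/-- `π^* ω(0)` is bounded in the charts of `W` -/
theorem Mod.omega_le (hT : 0 < T) : ∃ C : ℝ, 0 ≤ C ∧ ∀ c, ∀ x ∈ cpd (k := n) 9, ∀ v,
    lev (F.ψ (F.al c)) (fderiv ℝ (F.piC c) x v) (0, F.piC c x) ≤ C * nsq v := sorry

/-- `L/Overlap.lean` (K/Overlap.lean) -/
theorem Mod.overlap : ∃ r : ℝ, 0 < r ∧ ∀ c c' : ι, ∀ w,
    w ∈ (F.a c).source → w ∈ (F.a c').source → F.a c w ∈ cpd (3 / 2) →
    F.a c' w ∈ cpd (3 / 2) → ∀ x, x - F.a c w ∈ cpd (k := n) r →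
    (F.a c).symm x ∈ (F.a c').source ∧ F.a c' ((F.a c).symm x) ∈ cpd 2 := sorry

/-- `L/Chain.lean` (K/ChainOf.lean, K/Chain.lean) -/
theorem Mod.chain : ∃ (C r : ℝ) (B : ℕ), 1 ≤ C ∧ 0 < r ∧ r ≤ 1 ∧ ∀ t ∈ Ico 0 T, ∀ c,
    ∀ piv : Fin m → Fin n, (∀ i, F.row c (piv i) = some i) →
    ∀ q ∈ cpd (k := n) (3 / 2), (∀ i, prow (F.row c) i q ≠ 0) → nsq (F.yc c q) ≤ 20 →
    (∀ w ∈ cpd (k := n) r, Em (F.row c) piv q w ∈ opd 9) ∧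
    ∫ w in cpd (k := n) r, -F.gc t c (Em (F.row c) piv q w) ≤
      C * (T - t) * (1 + ∑ i, |Real.log ‖prow (F.row c) i q‖|) ^ B := sorry

/-- `L/Decay.lean` (K/DecayA.lean, K/DecayB.lean, K/Decay.lean) -/
theorem Mod.small {η : ℝ} (hη : 0 < η) : ∃ d₀ > 0, ∀ t ∈ Ico 0 T, T - t < d₀ → ∀ c,
    volume {x : Cn n | x ∈ cpd 1 ∧ nsq (F.yc c x) ≤ 16 ∧ F.gc t c x < -√(T - t)} ≤
      ENNReal.ofReal (η * (T - t) ^ (2 * n)) := sorry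

/-! ## G. volumes -/

/-- `L/Up.lean` (K/Up.lean): volumes in `M` and in `W` -/
theorem Mod.up (c : κ) {A : Set (Cn n)} (hA : IsCompact A) (hAt : A ⊆ (F.e c).target) :
    ∃ C : ℝ, 0 ≤ C ∧ ∀ S ⊆ A, ∀ B : ι → Set (Cn n), (∀ i, B i ⊆ cpd 1) →
      (∀ z ∈ S, ∃ i, ∃ x ∈ B i, F.π ((F.a i).symm x) = (F.e c).symm z) →
      volume S ≤ ENNReal.ofReal C * ∑ i, volume (B i) := sorry

/-- `L/TransferX.lean`: the volumes in `Y` and in `X` -/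
theorem Mod.transfer_X : ∃ (C : ℝ) (k : ℕ), 0 ≤ C ∧ ∀ a j, ∀ A : Set (Cn m),
    MeasurableSet A → A ⊆ {y | nsq y ≤ 25} → ∀ δ ∈ Ioc (0 : ℝ) 1,
    volume {z : Cn m | nsq z ≤ 25 ∧ (∀ i, δ ≤ ‖cc z i‖) ∧
      ∃ y ∈ A, F.q j y = F.σ ((F.b a).symm z)} ≤ ENNReal.ofReal (C * (1 / δ) ^ k) * volume A := sorry

/-- `L/TransferW.lean`: the volumes in `X` and in `W` -/
theorem Mod.transfer_W : ∃ (C : ℝ) (k : ℕ), 0 ≤ C ∧ ∀ c, ∀ A : Set (Cn m),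
    A ⊆ {z | nsq z ≤ 25} → ∀ δ ∈ Ioc (0 : ℝ) 1,
    volume {x : Cn n | x ∈ cpd 1 ∧ (∀ i, δ ≤ ‖prow (F.row c) i x‖) ∧ F.yc c x ∈ A} ≤
      ENNReal.ofReal (C * (1 / δ) ^ k) * volume A := sorry

/-- `L/Pole.lean` -/
theorem Mod.small_prow : ∃ C γ : ℝ, 0 < C ∧ 0 < γ ∧ ∀ c, ∀ δ ∈ Ioc (0 : ℝ) 1,
    volume {x : Cn n | x ∈ cpd 1 ∧ ∃ i, ‖prow (F.row c) i x‖ ≤ δ} ≤
      ENNReal.ofReal (C * δ ^ γ) := sorry

/-- `L/Pole.lean` -/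
theorem Mod.pole (c : κ) {A : Set (Cn n)} (hA : IsCompact A) (hAt : A ⊆ (F.e c).target) :
    ∃ C γ : ℝ, 0 < C ∧ 0 < γ ∧ ∀ δ ∈ Ioc (0 : ℝ) 1,
      volume {z | z ∈ A ∧ F.h (F.f ((F.e c).symm z)) ≤ δ} ≤ ENNReal.ofReal (C * δ ^ γ) := sorry

/-! ## H. the regularization -/

/-- `L/Reg.lean`: from `conv_osc`, `IsOrbifold.trans`; the constants `A`, `C₀` and the function
`ρ = exp (- (T - t)^(-1/2))`, `η = C₀ √(T - t)` -/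
theorem Mod.reg {χ : Cn m → ℝ} (hχ : IsKernel χ) (C : ℝ) : ∃ A C₀ d₀ : ℝ, 0 ≤ A ∧ 0 < C₀ ∧
    0 < d₀ ∧ ∀ t ∈ Ico 0 T, T - t < d₀ → A * (C₀ * √(T - t)) ≤ 1 / 2 ∧ ∀ u : Y → ℝ, F.IsBase C t u →
      (∀ j, ContDiffOn ℝ ∞ (F.Rj χ A (C₀ * √(T - t)) (Real.exp (-(1 / √(T - t)))) t u j)
        {y | nsq y < 25}) ∧
      (∀ j y, nsq y < 25 → ∀ v,
        0 ≤ levz (F.Rj χ A (C₀ * √(T - t)) (Real.exp (-(1 / √(T - t)))) t u j) v y +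
          t / T * levz (fun y => F.K j y - F.k₀ (F.q j y)) v y) ∧
      (∀ j y y', nsq y < 25 → nsq y' < 25 → F.q j y = F.q j y' →
        F.Rj χ A (C₀ * √(T - t)) (Real.exp (-(1 / √(T - t)))) t u j y =
          F.Rj χ A (C₀ * √(T - t)) (Real.exp (-(1 / √(T - t)))) t u j y') ∧
      ∀ j j' y y', 9 ≤ nsq y → nsq y ≤ 16 → nsq y' ≤ 1 → F.q j y = F.q j' y' →
        F.Rj χ A (C₀ * √(T - t)) (Real.exp (-(1 / √(T - t)))) t u j y <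
          F.Rj χ A (C₀ * √(T - t)) (Real.exp (-(1 / √(T - t)))) t u j' y' := sorry

/-- `L/RegSup.lean`: the function `R`, from the properties of the functions `R_j` -/
theorem Mod.R_spec {χ : Cn m → ℝ} {A η ρ t : ℝ} {u : Y → ℝ}
    (hs : ∀ j, ContinuousOn (F.Rj χ A η ρ t u j) {y | nsq y < 25})
    (hd : ∀ j y y', nsq y < 25 → nsq y' < 25 → F.q j y = F.q j y' →
      F.Rj χ A η ρ t u j y = F.Rj χ A η ρ t u j y')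
    (hlt : ∀ j j' y y', 9 ≤ nsq y → nsq y ≤ 16 → nsq y' ≤ 1 → F.q j y = F.q j' y' →
      F.Rj χ A η ρ t u j y < F.Rj χ A η ρ t u j' y') :
    Continuous (F.R χ A η ρ t u) ∧
    (∀ y, ∃ j y', nsq y' < 9 ∧ F.q j y' = y ∧ F.R χ A η ρ t u y = F.Rj χ A η ρ t u j y') ∧
    ∀ j y', nsq y' < 16 → F.Rj χ A η ρ t u j y' ≤ F.R χ A η ρ t u (F.q j y') := sorry

/-- `L/PshM.lean`: the regularization is psh on `M` -/
theorem Mod.R_psh {χ : Cn m → ℝ} {A η ρ t : ℝ} (ht : t ∈ Ico 0 T) {u : Y → ℝ}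
    (hs : ∀ j, ContDiffOn ℝ ∞ (F.Rj χ A η ρ t u j) {y | nsq y < 25})
    (hlev : ∀ j y, nsq y < 25 → ∀ v, 0 ≤ levz (F.Rj χ A η ρ t u j) v y +
      t / T * levz (fun y => F.K j y - F.k₀ (F.q j y)) v y)
    (hR : Continuous (F.R χ A η ρ t u) ∧
      (∀ y, ∃ j y', nsq y' < 9 ∧ F.q j y' = y ∧ F.R χ A η ρ t u y = F.Rj χ A η ρ t u j y') ∧
      ∀ j y', nsq y' < 16 → F.Rj χ A η ρ t u j y' ≤ F.R χ A η ρ t u (F.q j y')) :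
    ∀ c, ∀ z ∈ (F.e c).target, ∀ (U : Set (Cn n)) (s : Cn n → ℂ), IsOpen U → z ∈ U →
      U ⊆ (F.e c).target → NF.HolC s U → U ⊆ closure {w | w ∈ U ∧ s w ≠ 0} →
      (∀ w ∈ U, s w ≠ 0 → F.h (F.f ((F.e c).symm w)) ≠ 0) →
      PshC (fun w => F.R χ A η ρ t u (F.f ((F.e c).symm w)) + t / T * F.Θ c w) U := sorry

/-- `L/Near.lean`: the values of `u` near a point are bounded by `R` at the point -/
theorem Mod.le_R {χ : Cn m → ℝ} (hχ : IsKernel χ) (C A C₀ : ℝ) (hA : 0 ≤ A) (hC₀ : 0 < C₀) {k : ℝ}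
    (hk : 1 ≤ k) : ∃ C' d₀ : ℝ, 0 ≤ C' ∧ 0 < d₀ ∧ ∀ t ∈ Ico 0 T, T - t < d₀ → ∀ u : Y → ℝ,
      F.IsBase C t u → ∀ j y y', nsq y ≤ 1 → nsq (y' - y) ≤ (k * Real.exp (-(1 / √(T - t)))) ^ 2 →
        u (F.q j y') ≤ F.Rj χ A (C₀ * √(T - t)) (Real.exp (-(1 / √(T - t)))) t u j y +
          C' * √(T - t) := sorry

/-- `L/Near.lean`: `R_j` is not much larger than `u`, outside of a small set -/
theorem Mod.R_le {χ : Cn m → ℝ} (hχ : IsKernel χ) (C A C₀ : ℝ) (hA : 0 ≤ A) (hC₀ : 0 < C₀) :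
    ∃ C' d₀ : ℝ, 0 ≤ C' ∧ 0 < d₀ ∧ ∀ t ∈ Ico 0 T, T - t < d₀ → ∀ u : Y → ℝ,
      F.IsBase C t u → ∀ j y, nsq y ≤ 16 →
        conv χ (Real.exp (-(1 / √(T - t)))) (F.uj t u j) y ≤ F.uj t u j y + √(T - t) →
        F.Rj χ A (C₀ * √(T - t)) (Real.exp (-(1 / √(T - t)))) t u j y ≤ u (F.q j y) +
          C' * √(T - t) := sorry

/-! ## I. the end -/

/-- `L/Small.lean`: from `small`, `up`, `transfer_X`, `transfer_W`, `small_prow`, `conv_diff`,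
`R_le` -/
theorem Mod.small_M {χ : Cn m → ℝ} (hχ : IsKernel χ) (C A C₀ : ℝ) (hA : 0 ≤ A) (hC₀ : 0 < C₀) :
    ∃ C' : ℝ, 0 ≤ C' ∧ ∀ (c : κ) (K : Set (Cn n)), IsCompact K → K ⊆ (F.e c).target → ∀ η > 0,
      ∃ d₀ > 0, ∀ t ∈ Ico 0 T, T - t < d₀ → ∀ u : Y → ℝ, F.IsBase C t u →
        (∀ y, ∃ j y', nsq y' < 9 ∧ F.q j y' = y ∧
          F.R χ A (C₀ * √(T - t)) (Real.exp (-(1 / √(T - t)))) t u y =
            F.Rj χ A (C₀ * √(T - t)) (Real.exp (-(1 / √(T - t)))) t u j y') →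
        volume {z | z ∈ K ∧ F.Phi t ((F.e c).symm z) <
          F.R χ A (C₀ * √(T - t)) (Real.exp (-(1 / √(T - t)))) t u (F.f ((F.e c).symm z)) -
            C' * √(T - t)} ≤ ENNReal.ofReal (η * (T - t) ^ (2 * n)) := sorry

/-- `L/Upper.lean`: from `le_R`, `pole`, `ball_good`, `holder` -/
theorem Mod.upper_M {χ : Cn m → ℝ} (hχ : IsKernel χ) (C A C₀ : ℝ) (hA : 0 ≤ A) (hC₀ : 0 < C₀) :
    ∃ C' d₀ : ℝ, 0 ≤ C' ∧ 0 < d₀ ∧ ∀ t ∈ Ico 0 T, T - t < d₀ → ∀ u : Y → ℝ, F.IsBase C t u →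
      (∀ j y', nsq y' < 16 → F.Rj χ A (C₀ * √(T - t)) (Real.exp (-(1 / √(T - t)))) t u j y' ≤
        F.R χ A (C₀ * √(T - t)) (Real.exp (-(1 / √(T - t)))) t u (F.q j y')) → ∀ p,
      F.Phi t p ≤ F.R χ A (C₀ * √(T - t)) (Real.exp (-(1 / √(T - t)))) t u (F.f p) +
        C' * √(T - t) := sorry

/-- `L/Drop.lean`: from `base`, `reg`, `R_spec`, `R_psh`, `small_M`, `upper_M`,
`contact_of_psh`, `drop_of_psh` -/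
theorem Mod.drop : F.toFlow.Drop (1 / 2) := sorry

end Mod

end Pool.Agent.KRFH
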