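import Pool.Agent.Work.MP_a2bf38_gt.L.Setup
import Mathlib.MeasureTheory.Function.Jacobian
import Mathlib.MeasureTheory.Measure.Lebesgue.EqHaar

/-!
# The volumes in `Y` and in `X`
-/

open scoped ContDiff ENNReal ComplexOrder Topology
open Set MeasureTheory Filter Pool.Agent.ToricKRF Pool.Agent.ToricKRF.G Pool.Agent.KRFS
  Pool.Agent.KRFF Pool.Agent.KRFG

namespace Pool.Agent.KRFH

/-- the preimage of a measurable set under a map which is continuous on an open set -/
theorem measurableSet_inter_preimage_of_continuousOn {E E' : Type} [TopologicalSpace E]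
    [MeasurableSpace E] [BorelSpace E] [TopologicalSpace E'] [MeasurableSpace E'] [BorelSpace E']
    {f : E → E'} {U : Set E} (hU : IsOpen U) (hf : ContinuousOn f U) {A : Set E'}
    (hA : MeasurableSet A) : MeasurableSet (U ∩ f ⁻¹' A) := by
  have h1 : Measurable fun x : U => f x := (continuousOn_iff_continuous_domRestrict.1 hf).measurable
  have h2 : MeasurableSet ((Subtype.val : U → E) '' ((fun x : U => f x) ⁻¹' A)) :=
    MeasurableSet.subtype_image hU.measurableSet (h1 hA)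
  rwa [show U ∩ f ⁻¹' A = (Subtype.val : U → E) '' ((fun x : U => f x) ⁻¹' A) from by
    ext x
    constructor
    · rintro ⟨hx, hxA⟩
      exact ⟨⟨x, hx⟩, hxA, rfl⟩
    · rintro ⟨⟨y, hy⟩, hyA, rfl⟩
      exact ⟨hy, hyA⟩]

/-- The area formula for a correspondence which is the union of the graphs of local diffeomorphisms. -/
theorem transfer_aux {E : Type} [NormedAddCommGroup E] [NormedSpace ℝ E] [FiniteDimensional ℝ E]
    [MeasurableSpace E] [BorelSpace E] (μ : Measure E) [μ.IsAddHaarMeasure] {S A : Set E}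
    (hS : MeasurableSet S) (hA : MeasurableSet A) {R : E → E → Prop} {d : ℝ}
    (hinj : ∀ z z' y, z ∈ S → R z y → R z' y → z = z')
    (hloc : ∀ z ∈ S, ∀ y ∈ A, R z y → ∃ L : OpenPartialHomeomorph E E, z ∈ L.source ∧ L z = y ∧
      (∀ w ∈ L.source, DifferentiableAt ℝ L w) ∧ (∀ w ∈ L.source, R w (L w)) ∧
      ∀ w ∈ L.source, w ∈ S → L w ∈ A → d ≤ |(fderiv ℝ L w).det|) :
    ENNReal.ofReal d * μ {z | z ∈ S ∧ ∃ y ∈ A, R z y} ≤ μ A := by
  have : SecondCountableTopology E := secondCountable_of_proper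
  set Γ : Set (E × E) := {p | p.1 ∈ S ∧ p.2 ∈ A ∧ R p.1 p.2} with hΓ
  have hch : ∀ p : E × E, ∃ L : OpenPartialHomeomorph E E, p ∈ Γ → (p.1 ∈ L.source ∧ L p.1 = p.2 ∧
      (∀ w ∈ L.source, DifferentiableAt ℝ L w) ∧ (∀ w ∈ L.source, R w (L w)) ∧
      ∀ w ∈ L.source, w ∈ S → L w ∈ A → d ≤ |(fderiv ℝ L w).det|) := by
    intro p
    by_cases hp : p ∈ Γ
    · obtain ⟨L, hL⟩ := hloc p.1 hp.1 p.2 hp.2.1 hp.2.2
      exact ⟨L, fun _ => hL⟩
    · exact ⟨OpenPartialHomeomorph.refl E, fun h => absurd h hp⟩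
  choose L hL using hch
  obtain ⟨t, htΓ, htc, hcov⟩ := TopologicalSpace.countable_cover_nhdsWithin (s := Γ)
    (f := fun p => (L p).source ×ˢ (L p).target) fun p hp => by
      obtain ⟨h1, h2, -⟩ := hL p hp
      have h3 : p ∈ (L p).source ×ˢ (L p).target :=
        ⟨h1, by rw [← h2]; exact (L p).map_source h1⟩
      exact mem_nhdsWithin_of_mem_nhds
        (((L p).open_source.prod (L p).open_target).mem_nhds h3)
  rcases t.eq_empty_or_nonempty with rfl | hne
  · have h0 : {z | z ∈ S ∧ ∃ y ∈ A, R z y} = ∅ := by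
      ext z
      simp only [mem_ofPred_eq, mem_empty_iff_false, iff_false, not_and, not_exists]
      intro hz y hy hR
      have := hcov (show (z, y) ∈ Γ from ⟨hz, hy, hR⟩)
      simp at this
    rw [h0]
    simp
  obtain ⟨f, rfl⟩ := htc.exists_eq_range hne
  have hf : ∀ i, f i ∈ Γ := fun i => htΓ (mem_range_self i)
  set Ss : ℕ → Set E := fun i => S ∩ ((L (f i)).source ∩ (L (f i)) ⁻¹' A) with hSs
  have hSm : ∀ i, MeasurableSet (Ss i) := fun i =>
    hS.inter (measurableSet_inter_preimage_of_continuousOn (L (f i)).open_source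
      (L (f i)).continuousOn hA)
  have hsub : {z | z ∈ S ∧ ∃ y ∈ A, R z y} ⊆ ⋃ i, disjointed Ss i := by
    rw [iUnion_disjointed]
    rintro z ⟨hz, y, hy, hR⟩
    have h1 := hcov (show (z, y) ∈ Γ from ⟨hz, hy, hR⟩)
    simp only [mem_iUnion, mem_range, exists_prop] at h1
    obtain ⟨p, ⟨i, rfl⟩, hzs, hyt⟩ := h1
    obtain ⟨-, -, -, h2, -⟩ := hL (f i) (hf i)
    have h3 := h2 _ ((L (f i)).map_target hyt)
    rw [(L (f i)).right_inv hyt] at h3
    have h4 := hinj z _ y hz hR h3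
    have h5 : (L (f i)) z = y := by
      rw [h4]
      exact (L (f i)).right_inv hyt
    refine mem_iUnion.2 ⟨i, hz, hzs, ?_⟩
    rw [mem_preimage, h5]
    exact hy
  have hTm : ∀ i, MeasurableSet (disjointed Ss i) := fun i => MeasurableSet.disjointed hSm i
  have hTS : ∀ i, disjointed Ss i ⊆ Ss i := fun i => disjointed_le Ss i
  have hder : ∀ i, ∀ w ∈ disjointed Ss i, HasFDerivWithinAt (L (f i))
      (fderiv ℝ (L (f i)) w) (disjointed Ss i) w := fun i w hw =>
    ((hL (f i) (hf i)).2.2.1 w (hTS i hw).2.1).hasFDerivAt.hasFDerivWithinAt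
  have hin : ∀ i, InjOn (L (f i)) (disjointed Ss i) := fun i =>
    (L (f i)).injOn.mono fun w hw => (hTS i hw).2.1
  have him : ∀ i, MeasurableSet ((L (f i)) '' disjointed Ss i) := fun i =>
    measurable_image_of_fderivWithin (hTm i) (hder i) (hin i)
  have hone : ∀ i, ENNReal.ofReal d * μ (disjointed Ss i) ≤ μ ((L (f i)) '' disjointed Ss i) := by
    intro i
    rw [← lintegral_abs_det_fderiv_eq_addHaar_image μ (hTm i) (hder i) (hin i),
      ← setLIntegral_const]
    refine setLIntegral_mono' (hTm i) fun w hw => ENNReal.ofReal_le_ofReal ?_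
    have := hTS i hw
    exact (hL (f i) (hf i)).2.2.2.2 w this.2.1 this.1 this.2.2
  have hdis : Pairwise (Function.onFun Disjoint fun i => (L (f i)) '' disjointed Ss i) := by
    intro i k hik
    rw [Function.onFun, Set.disjoint_left]
    rintro y ⟨z, hz, rfl⟩ ⟨z', hz', he⟩
    have h1 := hTS i hz
    have h2 := hTS k hz'
    have h3 : R z ((L (f i)) z) := (hL (f i) (hf i)).2.2.2.1 z h1.2.1
    have h4 : R z' ((L (f i)) z) := by
      rw [← he]
      exact (hL (f k) (hf k)).2.2.2.1 z' h2.2.1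
    have h5 := hinj z z' _ h1.1 h3 h4
    subst h5
    exact Set.disjoint_left.1 (disjoint_disjointed Ss hik) hz hz'
  calc ENNReal.ofReal d * μ {z | z ∈ S ∧ ∃ y ∈ A, R z y}
      ≤ ENNReal.ofReal d * ∑' i, μ (disjointed Ss i) := by
        gcongr
        exact (measure_mono hsub).trans (measure_iUnion_le _)
    _ = ∑' i, ENNReal.ofReal d * μ (disjointed Ss i) := ENNReal.tsum_mul_left.symm
    _ ≤ ∑' i, μ ((L (f i)) '' disjointed Ss i) := ENNReal.tsum_le_tsum hone
    _ = μ (⋃ i, (L (f i)) '' disjointed Ss i) := (measure_iUnion hdis him).symm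
    _ ≤ μ A := by
        refine measure_mono (iUnion_subset fun i => ?_)
        rintro _ ⟨z, hz, rfl⟩
        exact (hTS i hz).2.2

section Mod

variable {n m : ℕ} {M Y X W : Type} [TopologicalSpace M] [CompactSpace M] [T2Space M]
  [TopologicalSpace Y] [T2Space Y] [TopologicalSpace X] [CompactSpace X] [T2Space X]
  [TopologicalSpace W] [T2Space W] {κ P Q ι : Type} [Finite P] [Finite Q] [Fintype ι] {T : ℝ}
  (F : Mod n m M Y X W κ P Q ι T)

/-- `L/TransferX.lean`: the volumes in `Y` and in `X` -/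
theorem Mod.transfer_X : ∃ (C : ℝ) (k : ℕ), 0 ≤ C ∧ ∀ a j, ∀ A : Set (Cn m),
    MeasurableSet A → A ⊆ {y | nsq y ≤ 25} → ∀ δ ∈ Ioc (0 : ℝ) 1,
    volume {z : Cn m | nsq z ≤ 25 ∧ (∀ i, δ ≤ ‖cc z i‖) ∧
      ∃ y ∈ A, F.q j y = F.σ ((F.b a).symm z)} ≤ ENNReal.ofReal (C * (1 / δ) ^ k) * volume A := by
  obtain ⟨c₁, k₁, hc₁, hlow⟩ := F.modif.h_low
  obtain ⟨c, k, hc, hjac⟩ := F.modif.jac
  refine ⟨1 / c, m * k, by positivity, ?_⟩
  intro a j A hA hA25 δ hδ
  have hδ0 : 0 < δ := hδ.1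
  set S : Set (Cn m) := {z | nsq z ≤ 25 ∧ ∀ i, δ ≤ ‖cc z i‖} with hSdef
  have hnsq : Continuous (nsq : Cn m → ℝ) := by
    unfold nsq
    fun_prop
  have hcc : ∀ i, Continuous fun z : Cn m => cc z i := by
    intro i
    have h1 : (fun z : Cn m => cc z i) =
        fun z : Cn m => ((z.1 i : ℝ) : ℂ) + ((z.2 i : ℝ) : ℂ) * Complex.I := by
      funext z
      apply Complex.ext <;> simp [cc]
    rw [h1]
    fun_prop
  have hS : MeasurableSet S := by
    have h1 : S = {z | nsq z ≤ 25} ∩ ⋂ i, {z | δ ≤ ‖cc z i‖} := by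
      ext z
      simp [hSdef]
    rw [h1]
    exact ((isClosed_le hnsq continuous_const).inter (isClosed_iInter fun i =>
      isClosed_le continuous_const (hcc i).norm)).measurableSet
  have hprod : ∀ z ∈ S, δ ^ m ≤ ∏ i, ‖cc z i‖ := by
    intro z hz
    calc δ ^ m = ∏ _i : Fin m, δ := by simp
      _ ≤ ∏ i, ‖cc z i‖ := Finset.prod_le_prod (fun _ _ => hδ0.le) fun i _ => hz.2 i
  have hh : ∀ z ∈ S, F.h (F.σ ((F.b a).symm z)) ≠ 0 := by
    intro z hz
    have h1 := hlow a z hz.1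
    have h2 : 0 < ∏ i, ‖cc z i‖ := lt_of_lt_of_le (by positivity) (hprod z hz)
    have h3 : 0 < c₁ * (∏ i, ‖cc z i‖) ^ k₁ := by positivity
    exact (lt_of_lt_of_le h3 h1).ne'
  have ht : ∀ z ∈ S, z ∈ (F.b a).target := fun z hz =>
    F.modif.target a (show nsq z < 100 from lt_of_le_of_lt hz.1 (by norm_num))
  have hhaar : (volume : Measure (Cn m)).IsAddHaarMeasure :=
    Measure.prod.instIsAddHaarMeasure (G := Fin m → ℝ) (H := Fin m → ℝ) volume volume
  have key := transfer_aux (volume : Measure (Cn m)) (S := S) (A := A)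
    (R := fun z y => z ∈ (F.b a).target ∧ F.q j y = F.σ ((F.b a).symm z))
    (d := c * (δ ^ m) ^ k) hS hA
    (by
      rintro z z' y hz ⟨h1, h2⟩ ⟨h3, h4⟩
      have h5 : F.σ ((F.b a).symm z) = F.σ ((F.b a).symm z') := by rw [← h2, ← h4]
      have h6 := F.modif.inj _ _ h5 (hh z hz)
      rw [← (F.b a).right_inv h1, ← (F.b a).right_inv h3, h6])
    (by
      rintro z hz y hy ⟨-, hR⟩
      have hy25 : nsq y ≤ 25 := hA25 hy
      obtain ⟨L, hzL, hLt, hLz, hLs, hL⟩ := F.modif.lift a z (ht z hz) (hh z hz) j y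
        (by linarith) hR
      refine ⟨L, hzL, hLz, ?_, ?_, ?_⟩
      · intro w hw
        exact (hL.1.1.contDiffAt (L.open_source.mem_nhds hw)).differentiableAt (by simp)
      · intro w hw
        exact ⟨hLt hw, (hL.2 w hw).2⟩
      · intro w hw hwS hwA
        have h1 := hjac a w hwS.1 (hh w hwS) j L.source L L.open_source hw
          (by have : nsq (L w) ≤ 25 := hA25 hwA
              linarith) hL
        refine le_trans ?_ h1
        have h2 := hprod w hwS
        gcongr)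
  have hd : 0 < c * (δ ^ m) ^ k := by positivity
  have hset : {z : Cn m | nsq z ≤ 25 ∧ (∀ i, δ ≤ ‖cc z i‖) ∧
      ∃ y ∈ A, F.q j y = F.σ ((F.b a).symm z)} ⊆
      {z | z ∈ S ∧ ∃ y ∈ A, z ∈ (F.b a).target ∧ F.q j y = F.σ ((F.b a).symm z)} := by
    rintro z ⟨h1, h2, y, hy, h3⟩
    exact ⟨⟨h1, h2⟩, y, hy, ht z ⟨h1, h2⟩, h3⟩
  have hinv : 1 / c * (1 / δ) ^ (m * k) = (c * (δ ^ m) ^ k)⁻¹ := by
    rw [← pow_mul, mul_inv, one_div, one_div, inv_pow]
  rw [hinv]
  refine (measure_mono hset).trans ?_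
  have h0 : ENNReal.ofReal (c * (δ ^ m) ^ k) ≠ 0 := (ENNReal.ofReal_pos.2 hd).ne'
  rw [ENNReal.ofReal_inv_of_pos hd, mul_comm, ← div_eq_mul_inv,
    ENNReal.le_div_iff_mul_le (Or.inl h0) (Or.inl ENNReal.ofReal_ne_top), mul_comm]
  exact key

end Mod

end Pool.Agent.KRFH
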